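import Pool.Agent.Q97.UM.Stm10

/-!
# Project UM5: job PMM (helper251): relative moments of short prime sums
-/

set_option autoImplicit false

namespace Pool.Agent.Q251.UM

open Filter Topology MeasureTheory Complex
open Pool.Agent.Q97.UM

noncomputable section

/-- iterated convolution -/
def ic (α b : ℕ → ℂ) : ℕ → ℕ → ℂ
  | 0 => b
  | (j + 1) => cv α (ic α b j)

lemma cv_supp (α c : ℕ → ℂ) (X M : ℕ) (hα : ∀ n, X < n → α n = 0) (hc : ∀ n, M < n → c n = 0) :
    ∀ n, X * M < n → cv α c n = 0 := by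
  intro n hn
  unfold cv
  refine Finset.sum_eq_zero fun p hp => ?_
  have h1 : p.1 * p.2 = n := (Nat.mem_divisorsAntidiagonal.1 hp).1
  by_cases h : X < p.1
  · rw [hα _ h, zero_mul]
  · by_cases h' : M < p.2
    · rw [hc _ h', mul_zero]
    · have := Nat.mul_le_mul (not_lt.1 h) (not_lt.1 h')
      omega

lemma ic_supp (α b : ℕ → ℂ) (X N : ℕ) (hα : ∀ n, X < n → α n = 0) (hb : ∀ n, N < n → b n = 0)
    (j : ℕ) : ∀ n, X ^ j * N < n → ic α b j n = 0 := by
  induction j with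
  | zero =>
    intro n hn
    rw [pow_zero, one_mul] at hn
    exact hb n hn
  | succ j ih =>
    intro n hn
    rw [pow_succ', mul_assoc] at hn
    exact cv_supp α _ X (X ^ j * N) hα ih n hn

lemma ic_dp (hD : S_DPM) (α b : ℕ → ℂ) (X N : ℕ) (hα : ∀ n, X < n → α n = 0)
    (hb : ∀ n, N < n → b n = 0) (t : ℝ) (j : ℕ) :
    dp (X ^ j * N) (ic α b j) t = dp X α t ^ j * dp N b t := by
  induction j with
  | zero => rw [pow_zero, pow_zero, one_mul, one_mul]; rfl
  | succ j ih =>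
    have h1 := hD.1 X (X ^ j * N) α (ic α b j) t hα (ic_supp α b X N hα hb j)
    rw [pow_succ', mul_assoc]
    change dp (X * (X ^ j * N)) (cv α (ic α b j)) t = _
    rw [← h1, ih, pow_succ', mul_assoc]

lemma N2_nonneg (N : ℕ) (b : ℕ → ℂ) : 0 ≤ N2 N b :=
  Finset.sum_nonneg fun _ _ => by positivity

lemma ic_N2 {C₀ A K : ℝ} (hC₀ : 1 ≤ C₀) (hA : 0 ≤ A) (X N m : ℕ) (hX : 2 ≤ X) (hN : 1 ≤ N)
    (hP : ∀ (M : ℕ) (α c : ℕ → ℂ), 1 ≤ M → (∀ n, α n ≠ 0 → n.Prime ∧ n ≤ X) →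
      (∀ n, ‖α n‖ ≤ A * (Real.log n / Real.log X)) → (∀ n, M < n → c n = 0) →
      N2 (X * M) (cv α c) ≤ C₀ * A ^ 2 * (1 + Real.log M / Real.log X) * N2 M c)
    (α b : ℕ → ℂ) (h1 : ∀ n, α n ≠ 0 → n.Prime ∧ n ≤ X)
    (h2 : ∀ n, ‖α n‖ ≤ A * (Real.log n / Real.log X)) (hb : ∀ n, N < n → b n = 0)
    (hK0 : 0 ≤ K) (hK : ∀ j ≤ m, C₀ * A ^ 2 * (1 + Real.log ((X ^ j * N : ℕ) : ℝ) / Real.log X) ≤ K)
    (j : ℕ) (hj : j ≤ m) : N2 (X ^ j * N) (ic α b j) ≤ K ^ j * N2 N b := by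
  have hα : ∀ n, X < n → α n = 0 := by
    intro n hn
    by_contra hc
    exact absurd (h1 n hc).2 (not_le.2 hn)
  induction j with
  | zero => rw [pow_zero, pow_zero, one_mul, one_mul]; exact le_rfl
  | succ j ih =>
    have ih' := ih (by omega)
    have hM : 1 ≤ X ^ j * N := Nat.one_le_iff_ne_zero.2
      (mul_ne_zero (pow_ne_zero _ (by omega)) (by omega))
    have h3 := hP (X ^ j * N) α (ic α b j) hM h1 h2 (ic_supp α b X N hα hb j)
    have e1 : X ^ (j + 1) * N = X * (X ^ j * N) := by rw [pow_succ', mul_assoc]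
    rw [e1]
    change N2 (X * (X ^ j * N)) (cv α (ic α b j)) ≤ _
    calc N2 (X * (X ^ j * N)) (cv α (ic α b j))
        ≤ C₀ * A ^ 2 * (1 + Real.log ((X ^ j * N : ℕ) : ℝ) / Real.log X) *
          N2 (X ^ j * N) (ic α b j) := h3
      _ ≤ K * (K ^ j * N2 N b) :=
          mul_le_mul (hK j (by omega)) ih' (N2_nonneg _ _) hK0
      _ = K ^ (j + 1) * N2 N b := by ring

/-- the mean value on `[T/2, 4T]` -/
lemma mvl3 (hD : S_DPM) (hM : S_MVL) (T : ℝ) (hT : 32 ≤ T) (M : ℕ)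
    (h : (M : ℝ) ≤ (T / 2) ^ (1 / 4 : ℝ)) (c : ℕ → ℂ) :
    ∫ t in (T / 2)..(4 * T), ‖dp M c t‖ ^ 2 ≤ 7 * T * N2 M c := by
  have hcont : Continuous fun t => ‖dp M c t‖ ^ 2 := ((hD.2.2 M c 0).2.norm).pow 2
  have hint : ∀ x y : ℝ, IntervalIntegrable (fun t => ‖dp M c t‖ ^ 2) volume x y :=
    fun x y => hcont.intervalIntegrable x y
  have h1 := (hM (T / 2) (by linarith) M h c).2
  have h2 := (hM T (by linarith) M (h.trans (Real.rpow_le_rpow (by linarith) (by linarith)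
    (by norm_num))) c).2
  have h3 := (hM (2 * T) (by linarith) M (h.trans (Real.rpow_le_rpow (by linarith) (by linarith)
    (by norm_num))) c).2
  have e1 : 2 * (T / 2) = T := by ring
  have e2 : 2 * (2 * T) = 4 * T := by ring
  rw [e1] at h1
  rw [e2] at h3
  rw [← intervalIntegral.integral_add_adjacent_intervals (hint (T / 2) T) (hint T (4 * T)),
    ← intervalIntegral.integral_add_adjacent_intervals (hint T (2 * T)) (hint (2 * T) (4 * T))]
  have := N2_nonneg M c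
  nlinarith [mul_nonneg (by linarith : (0:ℝ) ≤ T) this]

theorem t_PMM : J_PMM := by
  intro hD hM hP m A δ δ' hA hδ' hδδ hm
  obtain ⟨C₀, hC₀, hP⟩ := hP
  set K : ℝ := C₀ * A ^ 2 * (1 + (m + 1 / (16 * δ'))) with hKdef
  have hK0 : 0 ≤ K := by
    rw [hKdef]
    positivity
  refine ⟨7 * K ^ m, by positivity, ?_⟩
  have hev : ∀ᶠ T : ℝ in atTop, 2 ≤ T ^ δ' := (tendsto_rpow_atTop hδ').eventually_ge_atTop 2
  filter_upwards [eventually_ge_atTop (32 : ℝ), hev] with T hT hT2 N X hN hX1 hX2 b α hα1 hα2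
  have hT0 : 0 < T := by linarith
  have hT1 : 1 ≤ T := by linarith
  have hX : 2 ≤ X := by
    have : (2 : ℝ) ≤ X := hT2.trans hX1
    exact_mod_cast this
  have hX0 : (0 : ℝ) < X := by
    have : (2 : ℝ) ≤ X := by exact_mod_cast hX
    linarith
  have hXpos : 0 < Real.log X := Real.log_pos (by
    have : (2 : ℝ) ≤ X := by exact_mod_cast hX
    linarith)
  rcases Nat.eq_zero_or_pos N with hN0 | hN0
  · subst hN0
    have e0 : ∀ t, dp 0 b t = 0 := fun t => by simp [dp]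
    simp only [e0, norm_zero]
    have : N2 0 b = 0 := by simp [N2]
    rw [this]
    simp
  set b' : ℕ → ℂ := fun n => if n ≤ N then b n else 0 with hb'
  have hb'1 : ∀ n, N < n → b' n = 0 := fun n hn => if_neg (not_le.2 hn)
  have hdp : ∀ t, dp N b' t = dp N b t := by
    intro t
    refine Finset.sum_congr rfl fun n hn => ?_
    rw [hb']
    simp only [if_pos (Finset.mem_Icc.1 hn).2]
  have hN2 : N2 N b' = N2 N b := by
    refine Finset.sum_congr rfl fun n hn => ?_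
    rw [hb']
    simp only [if_pos (Finset.mem_Icc.1 hn).2]
  have hα : ∀ n, X < n → α n = 0 := by
    intro n hn
    by_contra hc
    exact absurd (hα1 n hc).2 (not_le.2 hn)
  have hlogT : 0 < Real.log T := Real.log_pos (by linarith)
  have hlX : δ' * Real.log T ≤ Real.log X := by
    rw [← Real.log_rpow hT0]
    exact Real.log_le_log (by positivity) hX1
  have hlN : Real.log N ≤ 1 / 16 * Real.log T := by
    rw [← Real.log_rpow hT0]
    exact Real.log_le_log (by exact_mod_cast hN0) hN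
  have hK : ∀ j ≤ m, C₀ * A ^ 2 * (1 + Real.log ((X ^ j * N : ℕ) : ℝ) / Real.log X) ≤ K := by
    intro j hj
    rw [hKdef]
    apply mul_le_mul_of_nonneg_left _ (by positivity)
    have e1 : Real.log ((X ^ j * N : ℕ) : ℝ) = j * Real.log X + Real.log N := by
      rw [Nat.cast_mul, Nat.cast_pow, Real.log_mul (by positivity)
        (by have : (0 : ℝ) < N := by exact_mod_cast hN0
            positivity), Real.log_pow]
    rw [e1, add_div, mul_div_assoc, div_self hXpos.ne', mul_one]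
    have hjm : (j : ℝ) ≤ m := by exact_mod_cast hj
    have h5 : Real.log N / Real.log X ≤ 1 / (16 * δ') := by
      rw [div_le_div_iff₀ hXpos (by positivity)]
      nlinarith
    linarith
  have hNm := ic_N2 hC₀ hA X N m hX hN0 (fun M α c h1 h2 h3 h4 => hP X M A α c hX h1 hA h2 h3 h4)
    α b' hα1 hα2 hb'1 hK0 hK m le_rfl
  rw [hN2] at hNm
  have hsize : ((X ^ m * N : ℕ) : ℝ) ≤ (T / 2) ^ (1 / 4 : ℝ) := by
    have h1 : ((X ^ m * N : ℕ) : ℝ) ≤ T ^ (1 / 8 : ℝ) := by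
      rw [Nat.cast_mul, Nat.cast_pow]
      calc (X : ℝ) ^ m * N ≤ (T ^ δ) ^ m * T ^ (1 / 16 : ℝ) :=
            mul_le_mul (pow_le_pow_left₀ hX0.le hX2 m) hN (by positivity) (by positivity)
        _ = T ^ (δ * m + 1 / 16) := by
            rw [← Real.rpow_natCast, ← Real.rpow_mul hT0.le, ← Real.rpow_add hT0]
        _ ≤ T ^ (1 / 8 : ℝ) := by
            apply Real.rpow_le_rpow_of_exponent_le hT1
            have : 0 < δ := by linarith
            nlinarith
    have h2 : T ^ (1 / 8 : ℝ) ≤ (T / 2) ^ (1 / 4 : ℝ) := by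
      have h3 : (T / 2) ^ (1 / 4 : ℝ) = ((T / 2) ^ 2) ^ (1 / 8 : ℝ) := by
        rw [← Real.rpow_natCast, ← Real.rpow_mul (by positivity)]
        norm_num
      rw [h3]
      apply Real.rpow_le_rpow hT0.le _ (by norm_num)
      nlinarith
    exact h1.trans h2
  have hfin := mvl3 hD hM T hT (X ^ m * N) hsize (ic α b' m)
  have e2 : ∀ t, ‖dp X α t‖ ^ (2 * m) * ‖dp N b t‖ ^ 2 = ‖dp (X ^ m * N) (ic α b' m) t‖ ^ 2 := by
    intro t
    rw [ic_dp hD α b' X N hα hb'1 t m, hdp, norm_mul, norm_pow, mul_pow, ← pow_mul, mul_comm m 2]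
  simp only [e2]
  calc ∫ t in (T / 2)..(4 * T), ‖dp (X ^ m * N) (ic α b' m) t‖ ^ 2
      ≤ 7 * T * N2 (X ^ m * N) (ic α b' m) := hfin
    _ ≤ 7 * T * (K ^ m * N2 N b) := mul_le_mul_of_nonneg_left hNm (by positivity)
    _ = 7 * K ^ m * T * N2 N b := by ring

end

end Pool.Agent.Q251.UM
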