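import Pool.Agent.Q251.UM.UGd

set_option autoImplicit false
set_option linter.unusedVariables false

/-! Project UM6 (helper97), job UG2 (helper251): small and large gaps relative to every Dirichlet polynomial. -/

namespace Pool.Agent.Q251.UG

open Filter Topology MeasureTheory Complex
open Pool.Agent.Q97.UM Pool.Agent.Q61.UM

noncomputable section

theorem t_UG2 : J_UG2 := by
  classical
  intro hUGB hSC hSAMP hDP hML hMV2
  obtain ⟨θ₁, c₀, η₀, hθ₁, hc₀, hη₀, hη1, hev1⟩ := hUGB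
  obtain ⟨θ₂, hθ₂, hSC⟩ := hSC
  have hκ : 0 < c₀ * η₀ := by positivity
  set ε' : ℝ := c₀ * η₀ / 200 with hε'
  have hε0 : 0 < ε' := by positivity
  obtain ⟨c, R₀, T₀, hc, hSC⟩ := hSC ε' hε0
  set A : ℝ := max 2 R₀ with hA
  have hA2 : 2 ≤ A := le_max_left _ _
  have hAR : R₀ ≤ A := le_max_right _ _
  have hA0 : 0 < A := by linarith
  obtain ⟨θ₃, hθ₃, hθ₃', hev3⟩ := hSAMP (min (c₀ * η₀ / 80) (1 / 2)) (by positivity)
  obtain ⟨C₀, hC₀, hmv⟩ := mv2' hMV2
  set θ : ℝ := min (min θ₁ θ₂) (min θ₃ (min (1 / 40) (c₀ * η₀ / (1000 * A)))) with hθdef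
  have hθ0 : 0 < θ := by positivity
  have hθa : θ ≤ θ₁ := (min_le_left _ _).trans (min_le_left _ _)
  have hθb : θ ≤ θ₂ := (min_le_left _ _).trans (min_le_right _ _)
  have hθc : θ ≤ θ₃ := (min_le_right _ _).trans (min_le_left _ _)
  have hθd : θ ≤ 1 / 40 := (min_le_right _ _).trans ((min_le_right _ _).trans (min_le_left _ _))
  have hθe : θ * (1000 * A) ≤ c₀ * η₀ := by
    have h1 : θ ≤ c₀ * η₀ / (1000 * A) := (min_le_right _ _).trans ((min_le_right _ _).trans (min_le_right _ _))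
    rwa [le_div_iff₀ (by positivity)] at h1
  set η : ℝ := min η₀ (c₀ * η₀ / 32) with hηdef
  have hη : 0 < η := by positivity
  set R : ℝ := Real.pi * A / 2 with hR
  have hπ : 3 < Real.pi := Real.pi_gt_three
  have hR0 : 0 < R := by positivity
  have hRA : R₀ ≤ R := by
    rw [hR]
    nlinarith
  refine ⟨θ, c₀ * η₀ / (32 * A), η, hθ0, by positivity, hη, (min_le_left _ _).trans hη1, ?_⟩
  -- large `T`
  have hpow : ∀ᶠ T : ℝ in atTop, C₀ * T ^ (1 / 20 : ℝ) ≤ ε' * T ∧ C₀ * T ^ (1 / 20 : ℝ) ≤ T / 2 ∧ 3 * T ^ (1 / 40 : ℝ) ≤ ε' * T := by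
    have key : ∀ (a K e : ℝ), a < 1 → 0 < K → 0 < e → ∀ᶠ T : ℝ in atTop, K * T ^ a ≤ e * T := by
      intro a K e ha hK he
      have h1 := (tendsto_rpow_atTop (show 0 < 1 - a by linarith)).eventually_ge_atTop (K / e)
      filter_upwards [h1, eventually_gt_atTop (0 : ℝ)] with T h hT
      rw [div_le_iff₀ he] at h
      have h2 : T ^ (1 - a) * T ^ a = T := by
        rw [← Real.rpow_add hT, sub_add_cancel, Real.rpow_one]
      have h3 : 0 < T ^ a := Real.rpow_pos_of_pos hT _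
      calc K * T ^ a ≤ T ^ (1 - a) * e * T ^ a := mul_le_mul_of_nonneg_right h h3.le
        _ = e * (T ^ (1 - a) * T ^ a) := by ring
        _ = e * T := by rw [h2]
    filter_upwards [key (1 / 20) C₀ ε' (by norm_num) (by linarith) hε0, key (1 / 20) C₀ (1 / 2) (by norm_num) (by linarith) (by norm_num),
      key (1 / 40) 3 ε' (by norm_num) (by norm_num) hε0] with T h1 h2 h3
    exact ⟨h1, by linarith, h3⟩
  filter_upwards [hev1, hev3, hpow, eventually_ge_atTop (64 : ℝ), eventually_ge_atTop T₀, eventually_ge_atTop R,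
    Real.tendsto_log_atTop.eventually_ge_atTop 1,
    Real.tendsto_log_atTop.eventually_ge_atTop (A * (2 * Real.pi))] with T hev1 hev3 hpow hT hT₀ hTR hL1 hLA
  intro N hN b
  have hT0 : 0 < T := by linarith
  have hle : ∀ {x : ℝ}, θ ≤ x → (N : ℝ) ≤ T ^ x := fun h => hN.trans (Real.rpow_le_rpow_of_exponent_le (by linarith) h)
  have hN40 : (N : ℝ) ≤ T ^ (1 / 40 : ℝ) := hle hθd
  have hN20 : (N : ℝ) ^ 2 ≤ T ^ (1 / 20 : ℝ) := by
    calc (N : ℝ) ^ 2 ≤ (T ^ (1 / 40 : ℝ)) ^ 2 := by gcongr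
      _ = T ^ (1 / 20 : ℝ) := by
          rw [← Real.rpow_natCast, ← Real.rpow_mul hT0.le]
          norm_num
  have hC0 : 0 ≤ C₀ := by linarith
  have hCN : C₀ * (N : ℝ) ^ 2 ≤ C₀ * T ^ (1 / 20 : ℝ) := mul_le_mul_of_nonneg_left hN20 hC0
  refine main_T (c := c) hDP hML hmv hc₀ hη₀ hη1 hA2 hθ0 hθe hθd hT hL1 ?_ hε' hR (by positivity) hN (hCN.trans hpow.1)
    (hCN.trans hpow.2.1) ?_ b ?_ (hev3 N (hle hθc) b).2.2 (hev1 N (hle hθa) b) hη (min_le_left _ _) (min_le_right _ _)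
  · rw [← mul_div_assoc, div_le_one (by linarith)]
    exact hLA
  · exact le_trans (by linarith) hpow.2.2
  · intro b
    exact hSC T hT₀ R hRA hTR N (hle hθb) b

end

end Pool.Agent.Q251.UG
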