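import Mathlib

set_option autoImplicit false
set_option linter.unusedVariables false

/-! Project UM6 (helper97), job UG2 (helper251): gaps of a finite set of reals, abstract part. -/

namespace Pool.Agent.Q251.UG

open Filter Topology MeasureTheory

/-- the next element of `G`, at distance at most `D` -/
structure NX (G : Finset ℝ) (D : ℝ) (nx : ℝ → ℝ) : Prop where
  lt : ∀ x, x < nx x
  le : ∀ x, nx x ≤ x + D
  nxt : ∀ x, ∀ y ∈ G, x < y → nx x ≤ y
  mem : ∀ x, nx x = x + D ∨ nx x ∈ G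

/-- the previous element of `G`, at distance at most `D` -/
structure PV (G : Finset ℝ) (D : ℝ) (pv : ℝ → ℝ) : Prop where
  lt : ∀ x, pv x < x
  le : ∀ x, x - D ≤ pv x
  prv : ∀ x, ∀ y ∈ G, y < x → y ≤ pv x
  mem : ∀ x, pv x = x - D ∨ pv x ∈ G

theorem exists_nx (G : Finset ℝ) {D : ℝ} (hD : 0 < D) : ∃ nx : ℝ → ℝ, NX G D nx := by
  classical
  have h : ∀ x : ℝ, ∃ y : ℝ, x < y ∧ y ≤ x + D ∧ (∀ z ∈ G, x < z → y ≤ z) ∧ (y = x + D ∨ y ∈ G) := by
    intro x
    have hne : (insert (x + D) (G.filter (fun z => x < z))).Nonempty := Finset.insert_nonempty _ _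
    refine ⟨(insert (x + D) (G.filter (fun z => x < z))).min' hne, ?_, ?_, ?_, ?_⟩
    · rw [Finset.lt_min'_iff]
      intro y hy
      rcases Finset.mem_insert.1 hy with rfl | hy
      · linarith
      · exact (Finset.mem_filter.1 hy).2
    · exact Finset.min'_le _ _ (Finset.mem_insert_self _ _)
    · intro z hz hxz
      exact Finset.min'_le _ _ (Finset.mem_insert_of_mem (Finset.mem_filter.2 ⟨hz, hxz⟩))
    · have := Finset.min'_mem _ hne
      rcases Finset.mem_insert.1 this with h | h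
      · left; exact h
      · right; exact (Finset.mem_filter.1 h).1
  choose nx h1 h2 h3 h4 using h
  exact ⟨nx, h1, h2, h3, h4⟩

theorem exists_pv (G : Finset ℝ) {D : ℝ} (hD : 0 < D) : ∃ pv : ℝ → ℝ, PV G D pv := by
  classical
  have h : ∀ x : ℝ, ∃ y : ℝ, y < x ∧ x - D ≤ y ∧ (∀ z ∈ G, z < x → z ≤ y) ∧ (y = x - D ∨ y ∈ G) := by
    intro x
    have hne : (insert (x - D) (G.filter (fun z => z < x))).Nonempty := Finset.insert_nonempty _ _
    refine ⟨(insert (x - D) (G.filter (fun z => z < x))).max' hne, ?_, ?_, ?_, ?_⟩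
    · rw [Finset.max'_lt_iff]
      intro y hy
      rcases Finset.mem_insert.1 hy with rfl | hy
      · linarith
      · exact (Finset.mem_filter.1 hy).2
    · exact Finset.le_max' _ _ (Finset.mem_insert_self _ _)
    · intro z hz hxz
      exact Finset.le_max' _ _ (Finset.mem_insert_of_mem (Finset.mem_filter.2 ⟨hz, hxz⟩))
    · have := Finset.max'_mem _ hne
      rcases Finset.mem_insert.1 this with h | h
      · left; exact h
      · right; exact (Finset.mem_filter.1 h).1
  choose pv h1 h2 h3 h4 using h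
  exact ⟨pv, h1, h2, h3, h4⟩

theorem int_core {G0 : Finset ℝ} {lo hi : ℝ → ℝ} {D a b M Kk Ef : ℝ} {f k : ℝ → ℝ} (hD : 0 ≤ D) (hab : a ≤ b)
    (hlo : ∀ x ∈ G0, lo x ≤ x) (hhi : ∀ x ∈ G0, x ≤ hi x) (hlh : ∀ x ∈ G0, hi x - lo x ≤ D)
    (ha : ∀ x ∈ G0, a - D ≤ lo x) (hb : ∀ x ∈ G0, hi x ≤ b + D)
    (hdis : (G0 : Set ℝ).PairwiseDisjoint fun x => Set.Ioc (lo x) (hi x))
    (hf : Continuous f) (hk : Continuous k) (hf0 : ∀ t, 0 ≤ f t) (hk0 : ∀ t, 0 ≤ k t) (hM : ∀ t, f t ≤ M)
    (hfk : ∀ x y : ℝ, |f y - f x| ≤ |∫ t in x..y, k t|)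
    (hK : ∫ t in (a - D)..(b + D), k t ≤ Kk)
    (hE : ∫ t in Set.Ioc a b \ ⋃ x ∈ G0, Set.Ioc (lo x) (hi x), f t ≤ Ef) :
    |∑ x ∈ G0, (hi x - lo x) * f x - ∫ t in a..b, f t| ≤ D * Kk + 2 * D * M + Ef := by
  set U : Set ℝ := ⋃ x ∈ G0, Set.Ioc (lo x) (hi x) with hU
  have hUm : MeasurableSet U := Finset.measurableSet_biUnion _ fun x _ => measurableSet_Ioc
  have hfi : ∀ c d : ℝ, IntegrableOn f (Set.Ioc c d) := fun c d =>
    (hf.integrableOn_Icc (a := c) (b := d)).mono_set Set.Ioc_subset_Icc_self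
  have hki : ∀ c d : ℝ, IntegrableOn k (Set.Ioc c d) := fun c d =>
    (hk.integrableOn_Icc (a := c) (b := d)).mono_set Set.Ioc_subset_Icc_self
  have hUsub : U ⊆ Set.Ioc (a - D) (b + D) := by
    intro t ht
    simp only [hU, Set.mem_iUnion] at ht
    obtain ⟨x, hx, h1, h2⟩ := ht
    exact ⟨lt_of_le_of_lt (ha x hx) h1, h2.trans (hb x hx)⟩
  have hpd : (G0 : Set ℝ).Pairwise (Function.onFun Disjoint fun x => Set.Ioc (lo x) (hi x)) := hdis
  -- the sums of the integrals
  have e1 : ∑ x ∈ G0, ∫ t in (lo x)..(hi x), f t = ∫ t in U, f t := by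
    rw [hU, integral_biUnion_finset _ (fun x _ => measurableSet_Ioc) hpd (fun x _ => hfi _ _)]
    refine Finset.sum_congr rfl fun x hx => ?_
    rw [intervalIntegral.integral_of_le ((hlo x hx).trans (hhi x hx))]
  have e2 : ∑ x ∈ G0, ∫ t in (lo x)..(hi x), k t = ∫ t in U, k t := by
    rw [hU, integral_biUnion_finset _ (fun x _ => measurableSet_Ioc) hpd (fun x _ => hki _ _)]
    refine Finset.sum_congr rfl fun x hx => ?_
    rw [intervalIntegral.integral_of_le ((hlo x hx).trans (hhi x hx))]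
  have e3 : ∫ t in U, k t ≤ Kk := by
    refine le_trans ?_ hK
    rw [intervalIntegral.integral_of_le (by linarith)]
    exact setIntegral_mono_set (hki _ _) (Eventually.of_forall fun t => hk0 t) hUsub.eventuallyLE
  -- variation
  have v1 : |∑ x ∈ G0, (hi x - lo x) * f x - ∑ x ∈ G0, ∫ t in (lo x)..(hi x), f t| ≤ D * Kk := by
    rw [← Finset.sum_sub_distrib]
    refine (Finset.abs_sum_le_sum_abs _ _).trans ?_
    calc ∑ x ∈ G0, |(hi x - lo x) * f x - ∫ t in (lo x)..(hi x), f t| ≤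
        ∑ x ∈ G0, D * ∫ t in (lo x)..(hi x), k t := by
          refine Finset.sum_le_sum fun x hx => ?_
          have h1 := hlo x hx
          have h2 := hhi x hx
          have h3 : (hi x - lo x) * f x - ∫ t in (lo x)..(hi x), f t = ∫ t in (lo x)..(hi x), (f x - f t) := by
            rw [intervalIntegral.integral_sub (by simp) (hf.intervalIntegrable _ _), intervalIntegral.integral_const,
              smul_eq_mul]
          have hkn : 0 ≤ ∫ t in (lo x)..(hi x), k t := intervalIntegral.integral_nonneg (h1.trans h2) fun t _ => hk0 t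
          rw [h3, ← Real.norm_eq_abs]
          have h5 : ∀ t ∈ Set.uIoc (lo x) (hi x), ‖f x - f t‖ ≤ ∫ t in (lo x)..(hi x), k t := by
            intro t ht
            rw [Set.uIoc_of_le (h1.trans h2), Set.mem_Ioc] at ht
            rw [Real.norm_eq_abs]
            refine (hfk t x).trans ?_
            have hki' : ∀ x y : ℝ, IntervalIntegrable k volume x y := fun x y => hk.intervalIntegrable x y
            rcases le_total t x with h | h
            · rw [abs_of_nonneg (intervalIntegral.integral_nonneg h fun t _ => hk0 t)]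
              exact intervalIntegral.integral_mono_interval ht.1.le h h2
                (Eventually.of_forall fun t => hk0 t) (hki' _ _)
            · rw [intervalIntegral.integral_symm, abs_neg, abs_of_nonneg (intervalIntegral.integral_nonneg h fun t _ => hk0 t)]
              exact intervalIntegral.integral_mono_interval h1 h ht.2
                (Eventually.of_forall fun t => hk0 t) (hki' _ _)
          refine (intervalIntegral.norm_integral_le_of_norm_le_const h5).trans ?_
          rw [abs_of_nonneg (by linarith), mul_comm]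
          exact mul_le_mul_of_nonneg_right (hlh x hx) hkn
      _ = D * ∫ t in U, k t := by rw [← Finset.mul_sum, e2]
      _ ≤ D * Kk := mul_le_mul_of_nonneg_left e3 hD
  -- comparison of the sets
  have hM0 : 0 ≤ M := (hf0 0).trans (hM 0)
  have hUi : IntegrableOn f U := (hfi _ _).mono_set hUsub
  have s1 : ∫ t in U, f t = (∫ t in U ∩ Set.Ioc a b, f t) + ∫ t in U \ Set.Ioc a b, f t :=
    (integral_inter_add_sdiff measurableSet_Ioc hUi).symm
  have s2 : ∫ t in a..b, f t = (∫ t in Set.Ioc a b ∩ U, f t) + ∫ t in Set.Ioc a b \ U, f t := by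
    rw [intervalIntegral.integral_of_le hab]
    exact (integral_inter_add_sdiff hUm (hfi _ _)).symm
  have s3 : ∫ t in U \ Set.Ioc a b, f t ≤ 2 * D * M := by
    have hsub : U \ Set.Ioc a b ⊆ Set.Ioc (a - D) a ∪ Set.Ioc b (b + D) := by
      intro t ht
      have h1 := hUsub ht.1
      have h2 : ¬ (a < t ∧ t ≤ b) := ht.2
      rw [Set.mem_union, Set.mem_Ioc, Set.mem_Ioc]
      by_cases h3 : t ≤ a
      · left; exact ⟨h1.1, h3⟩
      · right
        push Not at h3
        refine ⟨?_, h1.2⟩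
        by_contra h4
        push Not at h4
        exact h2 ⟨h3, h4⟩
    have h1 : ∫ t in U \ Set.Ioc a b, f t ≤ ∫ t in Set.Ioc (a - D) a ∪ Set.Ioc b (b + D), f t :=
      setIntegral_mono_set ((hfi _ _).union (hfi _ _)) (Eventually.of_forall fun t => hf0 t) hsub.eventuallyLE
    have h2 : ∫ t in Set.Ioc (a - D) a ∪ Set.Ioc b (b + D), f t =
        (∫ t in Set.Ioc (a - D) a, f t) + ∫ t in Set.Ioc b (b + D), f t := by
      refine setIntegral_union ?_ measurableSet_Ioc (hfi _ _) (hfi _ _)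
      rw [Set.disjoint_left]
      intro t h1 h2
      have := h1.2
      have := h2.1
      linarith
    have h3 : ∀ c : ℝ, ∫ t in Set.Ioc c (c + D), f t ≤ D * M := by
      intro c
      rw [← intervalIntegral.integral_of_le (by linarith)]
      have h4 : ∫ t in c..(c + D), f t ≤ ∫ t in c..(c + D), M :=
        intervalIntegral.integral_mono_on (by linarith) (hf.intervalIntegrable _ _) (by simp) fun t _ => hM t
      rw [intervalIntegral.integral_const, smul_eq_mul] at h4
      linarith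
    have h4 := h3 (a - D)
    rw [sub_add_cancel] at h4
    have h5 := h3 b
    rw [h2] at h1
    linarith
  have s4 : 0 ≤ ∫ t in U \ Set.Ioc a b, f t := setIntegral_nonneg (hUm.diff measurableSet_Ioc) fun t _ => hf0 t
  have s5 : 0 ≤ ∫ t in Set.Ioc a b \ U, f t := setIntegral_nonneg (measurableSet_Ioc.diff hUm) fun t _ => hf0 t
  rw [e1] at v1
  rw [Set.inter_comm] at s1
  have v2 := abs_le.1 v1
  rw [abs_le]
  have hDM : 0 ≤ 2 * D * M := by positivity
  constructor <;> linarith [v2.1, v2.2]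


theorem ksum {G0 : Finset ℝ} {lo hi : ℝ → ℝ} {A B Kk : ℝ} {k : ℝ → ℝ} (hAB : A ≤ B)
    (hlh : ∀ x ∈ G0, lo x ≤ hi x) (ha : ∀ x ∈ G0, A ≤ lo x) (hb : ∀ x ∈ G0, hi x ≤ B)
    (hdis : (G0 : Set ℝ).PairwiseDisjoint fun x => Set.Ioc (lo x) (hi x))
    (hk : Continuous k) (hk0 : ∀ t, 0 ≤ k t) (hK : ∫ t in A..B, k t ≤ Kk) :
    ∑ x ∈ G0, ∫ t in (lo x)..(hi x), k t ≤ Kk := by
  have hki : ∀ c d : ℝ, IntegrableOn k (Set.Ioc c d) := fun c d =>
    (hk.integrableOn_Icc (a := c) (b := d)).mono_set Set.Ioc_subset_Icc_self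
  set U : Set ℝ := ⋃ x ∈ G0, Set.Ioc (lo x) (hi x) with hU
  have hUsub : U ⊆ Set.Ioc A B := by
    intro t ht
    simp only [hU, Set.mem_iUnion] at ht
    obtain ⟨x, hx, h1, h2⟩ := ht
    exact ⟨lt_of_le_of_lt (ha x hx) h1, h2.trans (hb x hx)⟩
  have hpd : (G0 : Set ℝ).Pairwise (Function.onFun Disjoint fun x => Set.Ioc (lo x) (hi x)) := hdis
  have e2 : ∑ x ∈ G0, ∫ t in (lo x)..(hi x), k t = ∫ t in U, k t := by
    rw [hU, integral_biUnion_finset _ (fun x _ => measurableSet_Ioc) hpd (fun x _ => hki _ _)]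
    refine Finset.sum_congr rfl fun x hx => ?_
    rw [intervalIntegral.integral_of_le (hlh x hx)]
  rw [e2]
  refine le_trans ?_ hK
  rw [intervalIntegral.integral_of_le hAB]
  exact setIntegral_mono_set (hki _ _) (Eventually.of_forall fun t => hk0 t) hUsub.eventuallyLE

theorem dis_right {G G0 : Finset ℝ} {D : ℝ} {nx : ℝ → ℝ} (h : NX G D nx) (h0 : G0 ⊆ G) :
    (G0 : Set ℝ).PairwiseDisjoint fun x => Set.Ioc x (nx x) := by
  have key : ∀ x ∈ G0, ∀ y ∈ G0, x < y → Disjoint (Set.Ioc x (nx x)) (Set.Ioc y (nx y)) := by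
    intro x hx y hy hxy
    rw [Set.disjoint_left]
    intro t h1 h2
    have h3 := h.nxt x y (h0 hy) hxy
    have := h1.2
    have := h2.1
    linarith
  intro x hx y hy hxy
  rcases lt_or_gt_of_ne hxy with h' | h'
  · exact key x hx y hy h'
  · exact (key y hy x hx h').symm

theorem dis_left {G G0 : Finset ℝ} {D : ℝ} {pv : ℝ → ℝ} (h : PV G D pv) (h0 : G0 ⊆ G) :
    (G0 : Set ℝ).PairwiseDisjoint fun x => Set.Ioc (pv x) x := by
  have key : ∀ x ∈ G0, ∀ y ∈ G0, x < y → Disjoint (Set.Ioc (pv x) x) (Set.Ioc (pv y) y) := by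
    intro x hx y hy hxy
    rw [Set.disjoint_left]
    intro t h1 h2
    have h3 := h.prv y x (h0 hx) hxy
    have := h1.2
    have := h2.1
    linarith
  intro x hx y hy hxy
  rcases lt_or_gt_of_ne hxy with h' | h'
  · exact key x hx y hy h'
  · exact (key y hy x hx h').symm

theorem split_le {f : ℝ → ℝ} (hf : Continuous f) (hf0 : ∀ t, 0 ≤ f t) {M : ℝ} (hM : ∀ t, f t ≤ M) {c D : ℝ} (hD : 0 ≤ D)
    {V S : Set ℝ} (hVi : IntegrableOn f V) (hSi : IntegrableOn f S) {Ef : ℝ} (hE : ∫ t in S, f t ≤ Ef)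
    (hsub : ∀ t ∈ V, t ∉ Set.Ioc c (c + D) → t ∈ S) : ∫ t in V, f t ≤ D * M + Ef := by
  rw [← integral_inter_add_sdiff (measurableSet_Ioc (a := c) (b := c + D)) hVi]
  have h1 : ∫ t in V ∩ Set.Ioc c (c + D), f t ≤ ∫ t in Set.Ioc c (c + D), f t :=
    setIntegral_mono_set ((hf.integrableOn_Icc (a := c) (b := c + D)).mono_set Set.Ioc_subset_Icc_self)
      (Eventually.of_forall fun t => hf0 t) (Set.inter_subset_right).eventuallyLE
  have h2 : ∫ t in V \ Set.Ioc c (c + D), f t ≤ ∫ t in S, f t := by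
    have hss : V \ Set.Ioc c (c + D) ⊆ S := fun t ht => hsub t ht.1 ht.2
    exact setIntegral_mono_set hSi (Eventually.of_forall fun t => hf0 t) hss.eventuallyLE
  have h3 : ∫ t in Set.Ioc c (c + D), f t ≤ D * M := by
    rw [← intervalIntegral.integral_of_le (by linarith)]
    have h4 : ∫ t in c..(c + D), f t ≤ ∫ t in c..(c + D), M :=
      intervalIntegral.integral_mono_on (by linarith) (hf.intervalIntegrable _ _) (by simp) fun t _ => hM t
    rw [intervalIntegral.integral_const, smul_eq_mul] at h4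
    linarith
  linarith

theorem gap_right {G G0 : Finset ℝ} {D a b M Kk Ef : ℝ} {f k nx : ℝ → ℝ} (hD : 0 < D) (hab : a ≤ b) (h : NX G D nx)
    (h0 : G0 ⊆ G) (h1 : ∀ x ∈ G0, a ≤ x ∧ x ≤ b) (h2 : ∀ x ∈ G, a < x → x < b → x ∈ G0)
    (hf : Continuous f) (hk : Continuous k) (hf0 : ∀ t, 0 ≤ f t) (hk0 : ∀ t, 0 ≤ k t) (hM : ∀ t, f t ≤ M)
    (hfk : ∀ x y : ℝ, |f y - f x| ≤ |∫ t in x..y, k t|)
    (hK : ∫ t in (a - D)..(b + D), k t ≤ Kk) {S : Set ℝ}
    (hS : ∀ t, a + D < t → t ≤ b → (∀ y ∈ G, ¬ (t - D ≤ y ∧ y < t)) → t ∈ S) (hSi : IntegrableOn f S)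
    (hE : ∫ t in S, f t ≤ Ef) :
    |∑ x ∈ G0, (nx x - x) * f x - ∫ t in a..b, f t| ≤ D * Kk + 3 * D * M + Ef := by
  classical
  have hV : ∫ t in Set.Ioc a b \ ⋃ x ∈ G0, Set.Ioc ((fun x : ℝ => x) x) (nx x), f t ≤ D * M + Ef := by
    refine split_le (c := a) hf hf0 hM hD.le ?_ hSi hE ?_
    · exact ((hf.integrableOn_Icc (a := a) (b := b)).mono_set Set.Ioc_subset_Icc_self).mono_set Set.sdiff_subset
    · intro t ht htc
      obtain ⟨⟨ht1, ht2⟩, htU⟩ := ht
      have ht3 : a + D < t := by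
        by_contra hc
        push Not at hc
        exact htc ⟨ht1, hc⟩
      refine hS t ht3 ht2 ?_
      rintro y hy ⟨hy1, hy2⟩
      have hne : (G.filter (fun z => t - D ≤ z ∧ z < t)).Nonempty := ⟨y, Finset.mem_filter.2 ⟨hy, hy1, hy2⟩⟩
      set y0 := (G.filter (fun z => t - D ≤ z ∧ z < t)).max' hne with hy0
      have hm := Finset.max'_mem _ hne
      rw [← hy0, Finset.mem_filter] at hm
      obtain ⟨m1, m2, m3⟩ := hm
      have hG0 : y0 ∈ G0 := h2 y0 m1 (by linarith) (by linarith)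
      apply htU
      simp only [Set.mem_iUnion]
      refine ⟨y0, hG0, m3, ?_⟩
      rcases h.mem y0 with h' | h'
      · rw [h']; linarith
      · by_contra hc
        push Not at hc
        have h3 := h.lt y0
        have h4 := Finset.le_max' (G.filter (fun z => t - D ≤ z ∧ z < t)) (nx y0)
          (Finset.mem_filter.2 ⟨h', by linarith, hc⟩)
        rw [← hy0] at h4
        linarith
  have core := int_core (lo := fun x : ℝ => x) (hi := nx) (G0 := G0) (D := D) (a := a) (b := b) hD.le hab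
    (fun x _ => le_rfl) (fun x _ => (h.lt x).le) (fun x _ => by have := h.le x; linarith)
    (fun x hx => by have := (h1 x hx).1; linarith)
    (fun x hx => by have := h.le x; have := (h1 x hx).2; linarith)
    (dis_right h h0) hf hk hf0 hk0 hM hfk hK hV
  refine core.trans (le_of_eq ?_)
  ring

theorem gap_left {G G0 : Finset ℝ} {D a b M Kk Ef : ℝ} {f k pv : ℝ → ℝ} (hD : 0 < D) (hab : a ≤ b) (h : PV G D pv)
    (h0 : G0 ⊆ G) (h1 : ∀ x ∈ G0, a ≤ x ∧ x ≤ b) (h2 : ∀ x ∈ G, a < x → x < b → x ∈ G0)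
    (hf : Continuous f) (hk : Continuous k) (hf0 : ∀ t, 0 ≤ f t) (hk0 : ∀ t, 0 ≤ k t) (hM : ∀ t, f t ≤ M)
    (hfk : ∀ x y : ℝ, |f y - f x| ≤ |∫ t in x..y, k t|)
    (hK : ∫ t in (a - D)..(b + D), k t ≤ Kk) {S : Set ℝ}
    (hS : ∀ t, a < t → t ≤ b - D → (∀ y ∈ G, ¬ (t ≤ y ∧ y < t + D)) → t ∈ S) (hSi : IntegrableOn f S)
    (hE : ∫ t in S, f t ≤ Ef) :
    |∑ x ∈ G0, (x - pv x) * f x - ∫ t in a..b, f t| ≤ D * Kk + 3 * D * M + Ef := by
  classical
  have hV : ∫ t in Set.Ioc a b \ ⋃ x ∈ G0, Set.Ioc (pv x) ((fun x : ℝ => x) x), f t ≤ D * M + Ef := by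
    refine split_le (c := b - D) hf hf0 hM hD.le ?_ hSi hE ?_
    · exact ((hf.integrableOn_Icc (a := a) (b := b)).mono_set Set.Ioc_subset_Icc_self).mono_set Set.sdiff_subset
    · intro t ht htc
      obtain ⟨⟨ht1, ht2⟩, htU⟩ := ht
      rw [sub_add_cancel] at htc
      have ht3 : t ≤ b - D := by
        by_contra hc
        push Not at hc
        exact htc ⟨hc, ht2⟩
      refine hS t ht1 ht3 ?_
      rintro y hy ⟨hy1, hy2⟩
      have hne : (G.filter (fun z => t ≤ z ∧ z < t + D)).Nonempty := ⟨y, Finset.mem_filter.2 ⟨hy, hy1, hy2⟩⟩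
      set y0 := (G.filter (fun z => t ≤ z ∧ z < t + D)).min' hne with hy0
      have hm := Finset.min'_mem _ hne
      rw [← hy0, Finset.mem_filter] at hm
      obtain ⟨m1, m2, m3⟩ := hm
      have hG0 : y0 ∈ G0 := h2 y0 m1 (by linarith) (by linarith)
      apply htU
      simp only [Set.mem_iUnion]
      refine ⟨y0, hG0, ?_, m2⟩
      rcases h.mem y0 with h' | h'
      · rw [h']; linarith
      · by_contra hc
        push Not at hc
        have h3 := h.lt y0
        have h4 := Finset.min'_le (G.filter (fun z => t ≤ z ∧ z < t + D)) (pv y0)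
          (Finset.mem_filter.2 ⟨h', hc, by linarith⟩)
        rw [← hy0] at h4
        linarith
  have core := int_core (lo := pv) (hi := fun x : ℝ => x) (G0 := G0) (D := D) (a := a) (b := b) hD.le hab
    (fun x _ => (h.lt x).le) (fun x _ => le_rfl) (fun x _ => by have := h.le x; linarith)
    (fun x hx => by have := h.le x; have := (h1 x hx).1; linarith)
    (fun x hx => by have := (h1 x hx).2; linarith)
    (dis_left h h0) hf hk hf0 hk0 hM hfk hK hV
  refine core.trans (le_of_eq ?_)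
  ring

theorem transfer {G G0 : Finset ℝ} {D a b M Kk ρ : ℝ} {f k nx pv : ℝ → ℝ} (hρ : 0 < ρ) (hρD : ρ ≤ D) (hab : a ≤ b)
    (h : NX G D nx) (h' : PV G D pv)
    (h0 : G0 ⊆ G) (h1 : ∀ x ∈ G0, a ≤ x ∧ x ≤ b) (h2 : ∀ x ∈ G, a < x → x < b → x ∈ G0)
    (hk : Continuous k) (hf0 : ∀ t, 0 ≤ f t) (hk0 : ∀ t, 0 ≤ k t) (hM : ∀ t, f t ≤ M)
    (hfk : ∀ x y : ℝ, |f y - f x| ≤ |∫ t in x..y, k t|)
    (hK : ∫ t in (a - D)..(b + D), k t ≤ Kk) :
    ∑ x ∈ G0, max (1 - (x - pv x) / ρ) 0 * f x ≤ ∑ x ∈ G0, max (1 - (nx x - x) / ρ) 0 * f x + Kk + M := by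
  classical
  have hM0 : 0 ≤ M := (hf0 0).trans (hM 0)
  set φ : ℝ → ℝ := fun x => max (1 - (x - pv x) / ρ) 0 with hφ
  set ψ : ℝ → ℝ := fun x => max (1 - (nx x - x) / ρ) 0 with hψ
  have hψ0 : ∀ x, 0 ≤ ψ x := fun x => le_max_right _ _
  have hφ0 : ∀ x, 0 ≤ φ x := fun x => le_max_right _ _
  have hψ1 : ∀ x, ψ x ≤ 1 := by
    intro x
    have h3 := h.lt x
    have : 0 ≤ (nx x - x) / ρ := by
      apply div_nonneg _ hρ.le
      linarith
    exact max_le (by linarith) zero_le_one
  have hφ1 : ∀ x, φ x ≤ 1 := by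
    intro x
    have h3 := h'.lt x
    have : 0 ≤ (x - pv x) / ρ := by
      apply div_nonneg _ hρ.le
      linarith
    exact max_le (by linarith) zero_le_one
  set S := G0.filter (fun x => x - pv x < ρ) with hS
  have hpG : ∀ x ∈ S, pv x ∈ G := by
    intro x hx
    rw [hS, Finset.mem_filter] at hx
    rcases h'.mem x with h3 | h3
    · exfalso
      have := hx.2
      rw [h3] at this
      linarith
    · exact h3
  have hnp : ∀ x ∈ S, nx (pv x) = x := by
    intro x hx
    have hxm := hx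
    rw [hS, Finset.mem_filter] at hxm
    have h3 := h'.lt x
    have h4 := h.nxt (pv x) x (h0 hxm.1) h3
    rcases h.mem (pv x) with h5 | h5
    · exfalso
      rw [h5] at h4
      linarith [hxm.2]
    · by_contra hne
      have h6 : nx (pv x) < x := lt_of_le_of_ne h4 hne
      have h7 := h'.prv x _ h5 h6
      have h8 := h.lt (pv x)
      linarith
  have e1 : ∑ x ∈ G0, φ x * f x = ∑ x ∈ S, φ x * f x := by
    rw [hS, Finset.sum_filter]
    refine Finset.sum_congr rfl fun x _ => ?_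
    split_ifs with h3
    · rfl
    · push Not at h3
      have : φ x = 0 := by
        apply max_eq_right
        have : 1 ≤ (x - pv x) / ρ := by rw [le_div_iff₀ hρ]; linarith
        linarith
      rw [this, zero_mul]
  have e2 : ∑ x ∈ S, φ x * f x ≤ ∑ x ∈ S, (ψ (pv x) * f (pv x) + ∫ t in (pv x)..x, k t) := by
    refine Finset.sum_le_sum fun x hx => ?_
    have h3 : φ x = ψ (pv x) := by
      simp only [hφ, hψ]
      rw [hnp x hx]
    have h4 := hfk (pv x) x
    have h5 : 0 ≤ ∫ t in (pv x)..x, k t := intervalIntegral.integral_nonneg (h'.lt x).le fun t _ => hk0 t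
    rw [abs_of_nonneg h5] at h4
    have h6 := (abs_le.1 h4).2
    have h7 : f x ≤ f (pv x) + ∫ t in (pv x)..x, k t := by linarith
    have h8 : φ x * f x ≤ φ x * (f (pv x) + ∫ t in (pv x)..x, k t) := mul_le_mul_of_nonneg_left h7 (hφ0 x)
    have h9 : φ x * (∫ t in (pv x)..x, k t) ≤ 1 * ∫ t in (pv x)..x, k t := mul_le_mul_of_nonneg_right (hφ1 x) h5
    rw [mul_add, h3] at h8
    rw [h3] at h9
    rw [h3]
    linarith
  have hSG : S ⊆ G0 := Finset.filter_subset _ _
  have e3 : ∑ x ∈ S, ∫ t in (pv x)..x, k t ≤ Kk := by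
    refine ksum (lo := pv) (hi := fun x : ℝ => x) (A := a - D) (B := b + D) (by linarith) (fun x _ => (h'.lt x).le)
      (fun x hx => ?_) (fun x hx => ?_) (dis_left h' (hSG.trans h0)) hk hk0 hK
    · have := h'.le x; have := (h1 x (hSG hx)).1; linarith
    · have := (h1 x (hSG hx)).2; linarith
  have e4 : ∑ x ∈ S, ψ (pv x) * f (pv x) ≤ ∑ x ∈ G0, ψ x * f x + M := by
    rw [← Finset.sum_filter_add_sum_filter_not S (fun x => pv x ∈ G0)]
    have h3 : ∑ x ∈ S.filter (fun x => pv x ∈ G0), ψ (pv x) * f (pv x) ≤ ∑ x ∈ G0, ψ x * f x := by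
      have hinj : Set.InjOn pv (S.filter (fun x => pv x ∈ G0) : Finset ℝ) := by
        intro x hx y hy hxy
        rw [Finset.mem_coe, Finset.mem_filter] at hx hy
        rw [← hnp x hx.1, ← hnp y hy.1, hxy]
      rw [← Finset.sum_image (f := fun y => ψ y * f y) hinj]
      refine Finset.sum_le_sum_of_subset_of_nonneg ?_ fun y _ _ => mul_nonneg (hψ0 y) (hf0 y)
      intro y hy
      rw [Finset.mem_image] at hy
      obtain ⟨x, hx, rfl⟩ := hy
      exact (Finset.mem_filter.1 hx).2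
    have h4 : ∑ x ∈ S.filter (fun x => ¬ pv x ∈ G0), ψ (pv x) * f (pv x) ≤ M := by
      have hcard : (S.filter (fun x => ¬ pv x ∈ G0)).card ≤ 1 := by
        rw [Finset.card_le_one]
        have key : ∀ x ∈ S.filter (fun x => ¬ pv x ∈ G0), ∀ y ∈ S.filter (fun x => ¬ pv x ∈ G0), ¬ x < y := by
          intro x hx y hy hxy
          rw [Finset.mem_filter] at hx hy
          have h5 := h'.prv y x (h0 (hSG hx.1)) hxy
          have h6 := h1 x (hSG hx.1)
          have h7 := h1 y (hSG hy.1)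
          have h8 := h'.lt y
          have h9 : pv y ≤ a := by
            by_contra hc
            push Not at hc
            exact hy.2 (h2 _ (hpG y hy.1) hc (by linarith))
          have h10 : pv y = x := by linarith
          apply hy.2
          rw [h10]
          exact hSG hx.1
        intro x hx y hy
        rcases lt_trichotomy x y with h5 | h5 | h5
        · exact absurd h5 (key x hx y hy)
        · exact h5
        · exact absurd h5 (key y hy x hx)
      calc ∑ x ∈ S.filter (fun x => ¬ pv x ∈ G0), ψ (pv x) * f (pv x) ≤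
          ∑ x ∈ S.filter (fun x => ¬ pv x ∈ G0), M := by
            refine Finset.sum_le_sum fun x _ => ?_
            calc ψ (pv x) * f (pv x) ≤ 1 * M := mul_le_mul (hψ1 _) (hM _) (hf0 _) zero_le_one
              _ = M := one_mul _
        _ = (S.filter (fun x => ¬ pv x ∈ G0)).card * M := by rw [Finset.sum_const, nsmul_eq_mul]
        _ ≤ 1 * M := by
            apply mul_le_mul_of_nonneg_right _ hM0
            exact_mod_cast hcard
        _ = M := one_mul _
    linarith
  rw [Finset.sum_add_distrib] at e2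
  rw [e1]
  linarith

end Pool.Agent.Q251.UG
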