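import Pool.Agent.Q97.UM.Stm13
import Pool.Agent.Q61.UM.SAMPb
import Pool.Agent.Q251.UM.UGa

set_option autoImplicit false
set_option linter.unusedVariables false

/-! Project UM6 (helper97), job UG2 (helper251): combination of the inequalities; Dirichlet polynomials. -/

namespace Pool.Agent.Q251.UG

open Filter Topology MeasureTheory Complex
open Pool.Agent.Q97.UM Pool.Agent.Q61.UM

noncomputable section

theorem pt_bad {g g' M η₀ : ℝ} (hη0 : 0 < η₀) (hη1 : η₀ ≤ 1 / 2) (hM : M = 1 ∨ 2 ≤ M) {bad : Prop} [Decidable bad]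
    (hbad : bad → 2 ≤ M ∨ η₀ ≤ |g - 1| ∨ η₀ ≤ |g' - 1|) :
    η₀ / 2 * (if bad then M else 0) ≤ (g - M) + (g' - M) + 3 * (M - 1) + 2 * max (1 - g) 0 + 2 * max (1 - g') 0 := by
  have key : ∀ x : ℝ, |x - 1| = (x - 1) + 2 * max (1 - x) 0 := by
    intro x
    rcases le_total x 1 with h | h
    · rw [abs_of_nonpos (by linarith), max_eq_left (by linarith)]; ring
    · rw [abs_of_nonneg (by linarith), max_eq_right (by linarith)]; ring
  have h1 := key g
  have h2 := key g'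
  have h3 := abs_nonneg (g - 1)
  have h4 := abs_nonneg (g' - 1)
  have hM1 : 1 ≤ M := by rcases hM with h | h <;> linarith
  split_ifs with hb
  · rcases hM with hM' | hM'
    · rcases hbad hb with h | h | h
      · linarith
      · rw [hM'] at *; linarith
      · rw [hM'] at *; linarith
    · nlinarith
  · linarith

theorem combine {G0 : Finset ℝ} {f g g' M : ℝ → ℝ} {bad : ℝ → Prop} [DecidablePred bad] {η η₀ δ δ₃ A c₀ W : ℝ}
    (hf0 : ∀ x, 0 ≤ f x) (hM : ∀ x ∈ G0, M x = 1 ∨ 2 ≤ M x) (hη0 : 0 < η₀) (hη1 : η₀ ≤ 1 / 2) (hη : 0 < η)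
    (hA : 1 ≤ A) (hgA : ∀ x ∈ G0, g x ≤ A) (hg0 : ∀ x ∈ G0, 0 ≤ g x) (hg0' : ∀ x ∈ G0, 0 ≤ g' x)
    (hbad : ∀ x ∈ G0, bad x → 2 ≤ M x ∨ η₀ ≤ |g x - 1| ∨ η₀ ≤ |g' x - 1|)
    (hb : c₀ * W ≤ ∑ x ∈ G0, (if bad x then M x else 0) * f x)
    (h1 : |∑ x ∈ G0, (g x - M x) * f x| ≤ δ * W) (h2 : |∑ x ∈ G0, (g' x - M x) * f x| ≤ δ * W)
    (hSM : ∑ x ∈ G0, M x * f x ≤ W)
    (ht : ∑ x ∈ G0, max (1 - g' x) 0 * f x ≤ ∑ x ∈ G0, max (1 - g x) 0 * f x + δ₃ * W)
    (hW : 0 ≤ W) (hc : 0 < c₀) (hδ : δ ≤ c₀ * η₀ / 40) (hδ3 : δ₃ ≤ c₀ * η₀ / 40) (hηk : η ≤ c₀ * η₀ / 32) :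
    c₀ * η₀ / 28 * W ≤ ∑ x ∈ G0, (if 2 ≤ M x ∨ g x ≤ 1 - η ∨ g' x ≤ 1 - η then M x else 0) * f x ∧
    c₀ * η₀ / (32 * A) * W ≤ ∑ x ∈ G0, (if 1 + η ≤ g x then 1 else 0) * f x := by
  have h1' := abs_le.1 h1
  have h2' := abs_le.1 h2
  have hκW : 0 ≤ c₀ * η₀ * W := by positivity
  have hδW : δ * W ≤ c₀ * η₀ / 40 * W := mul_le_mul_of_nonneg_right hδ hW
  have hδ3W : δ₃ * W ≤ c₀ * η₀ / 40 * W := mul_le_mul_of_nonneg_right hδ3 hW
  have hηW : η * W ≤ c₀ * η₀ / 32 * W := mul_le_mul_of_nonneg_right hηk hW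
  have hM1 : ∀ x ∈ G0, 1 ≤ M x := fun x hx => by rcases hM x hx with h | h <;> linarith
  have hηSM : η * ∑ x ∈ G0, M x * f x ≤ η * W := mul_le_mul_of_nonneg_left hSM hη.le
  have hbase : η₀ / 2 * ∑ x ∈ G0, (if bad x then M x else 0) * f x ≤
      ∑ x ∈ G0, ((g x - M x) + (g' x - M x) + 3 * (M x - 1) + 2 * max (1 - g x) 0 + 2 * max (1 - g' x) 0) * f x := by
    rw [Finset.mul_sum]
    refine Finset.sum_le_sum fun x hx => ?_
    rw [← mul_assoc]
    exact mul_le_mul_of_nonneg_right (pt_bad hη0 hη1 (hM x hx) (hbad x hx)) (hf0 x)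
  have hb' : η₀ / 2 * (c₀ * W) ≤ η₀ / 2 * ∑ x ∈ G0, (if bad x then M x else 0) * f x :=
    mul_le_mul_of_nonneg_left hb (by positivity)
  constructor
  · have h3 : ∑ x ∈ G0, ((g x - M x) + (g' x - M x) + 3 * (M x - 1) + 2 * max (1 - g x) 0 + 2 * max (1 - g' x) 0) * f x ≤
        ∑ x ∈ G0, ((g x - M x) * f x + (g' x - M x) * f x + 4 * η * (M x * f x) +
          7 * ((if 2 ≤ M x ∨ g x ≤ 1 - η ∨ g' x ≤ 1 - η then M x else 0) * f x)) := by
      refine Finset.sum_le_sum fun x hx => ?_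
      have hm := hM1 x hx
      have h5 : (g x - M x) * f x + (g' x - M x) * f x + 4 * η * (M x * f x) +
          7 * ((if 2 ≤ M x ∨ g x ≤ 1 - η ∨ g' x ≤ 1 - η then M x else 0) * f x) =
          ((g x - M x) + (g' x - M x) + 4 * η * M x +
          7 * (if 2 ≤ M x ∨ g x ≤ 1 - η ∨ g' x ≤ 1 - η then M x else 0)) * f x := by ring
      rw [h5]
      refine mul_le_mul_of_nonneg_right ?_ (hf0 x)
      have hηM : η ≤ η * M x := by nlinarith
      by_cases hs : 2 ≤ M x ∨ g x ≤ 1 - η ∨ g' x ≤ 1 - η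
      · rw [if_pos hs]
        have a1 : max (1 - g x) 0 ≤ 1 := max_le (by linarith [hg0 x hx]) zero_le_one
        have a2 : max (1 - g' x) 0 ≤ 1 := max_le (by linarith [hg0' x hx]) zero_le_one
        linarith
      · rw [if_neg hs]
        push Not at hs
        obtain ⟨s1, s2, s3⟩ := hs
        have a1 : max (1 - g x) 0 ≤ η := max_le (by linarith) hη.le
        have a2 : max (1 - g' x) 0 ≤ η := max_le (by linarith) hη.le
        have a3 : M x = 1 := by
          rcases hM x hx with h | h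
          · exact h
          · linarith
        rw [a3]
        linarith
    rw [Finset.sum_add_distrib, Finset.sum_add_distrib, Finset.sum_add_distrib, ← Finset.mul_sum, ← Finset.mul_sum] at h3
    have h4 : c₀ * η₀ / 4 * W ≤ 7 * ∑ x ∈ G0, (if 2 ≤ M x ∨ g x ≤ 1 - η ∨ g' x ≤ 1 - η then M x else 0) * f x := by
      have e1 : η₀ / 2 * (c₀ * W) = c₀ * η₀ * W / 2 := by ring
      have e2 : c₀ * η₀ / 40 * W = c₀ * η₀ * W / 40 := by ring
      have e3 : c₀ * η₀ / 32 * W = c₀ * η₀ * W / 32 := by ring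
      have e4 : c₀ * η₀ / 4 * W = c₀ * η₀ * W / 4 := by ring
      have e5 : 4 * η * ∑ x ∈ G0, M x * f x = 4 * (η * ∑ x ∈ G0, M x * f x) := by ring
      rw [e5] at h3
      rw [e2] at hδW
      rw [e3] at hηW
      rw [e1] at hb'
      rw [e4]
      linarith [h1'.2, h2'.2]
    have e6 : c₀ * η₀ / 28 * W = c₀ * η₀ / 4 * W / 7 := by ring
    rw [e6]
    linarith
  · have h3 : ∑ x ∈ G0, ((g x - M x) + (g' x - M x) + 3 * (M x - 1) + 2 * max (1 - g x) 0 + 2 * max (1 - g' x) 0) * f x ≤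
        ∑ x ∈ G0, ((g' x - M x) * f x + 4 * η * (M x * f x) +
          4 * A * ((if 1 + η ≤ g x then 1 else 0) * f x) + 2 * (max (1 - g' x) 0 * f x) -
          (3 * ((g x - M x) * f x) + 2 * (max (1 - g x) 0 * f x))) := by
      refine Finset.sum_le_sum fun x hx => ?_
      have hm := hM1 x hx
      have h5 : (g' x - M x) * f x + 4 * η * (M x * f x) +
          4 * A * ((if 1 + η ≤ g x then 1 else 0) * f x) + 2 * (max (1 - g' x) 0 * f x) -
          (3 * ((g x - M x) * f x) + 2 * (max (1 - g x) 0 * f x)) =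
          ((g' x - M x) + 4 * η * M x + 4 * A * (if 1 + η ≤ g x then 1 else 0) + 2 * max (1 - g' x) 0 -
            (3 * (g x - M x) + 2 * max (1 - g x) 0)) * f x := by ring
      rw [h5]
      refine mul_le_mul_of_nonneg_right ?_ (hf0 x)
      have hηM : η ≤ η * M x := by nlinarith
      have key : max (g x - 1) 0 - max (1 - g x) 0 = g x - 1 := by
        rcases le_total (g x) 1 with h | h
        · rw [max_eq_right (by linarith), max_eq_left (by linarith)]; ring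
        · rw [max_eq_left (by linarith), max_eq_right (by linarith)]; ring
      have key2 : max (g x - 1) 0 ≤ η * M x + A * (if 1 + η ≤ g x then 1 else 0) := by
        have hgx := hgA x hx
        split_ifs with h6
        · exact max_le (by linarith) (by nlinarith)
        · push Not at h6
          exact max_le (by linarith) (by nlinarith)
      linarith
    rw [Finset.sum_sub_distrib, Finset.sum_add_distrib, Finset.sum_add_distrib, Finset.sum_add_distrib, Finset.sum_add_distrib,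
      ← Finset.mul_sum, ← Finset.mul_sum, ← Finset.mul_sum, ← Finset.mul_sum, ← Finset.mul_sum] at h3
    have h4 : c₀ * η₀ / 8 * W ≤ 4 * A * ∑ x ∈ G0, (if 1 + η ≤ g x then 1 else 0) * f x := by
      have e1 : η₀ / 2 * (c₀ * W) = c₀ * η₀ * W / 2 := by ring
      have e2 : c₀ * η₀ / 40 * W = c₀ * η₀ * W / 40 := by ring
      have e3 : c₀ * η₀ / 32 * W = c₀ * η₀ * W / 32 := by ring
      have e4 : c₀ * η₀ / 8 * W = c₀ * η₀ * W / 8 := by ring
      have e5 : 4 * η * ∑ x ∈ G0, M x * f x = 4 * (η * ∑ x ∈ G0, M x * f x) := by ring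
      rw [e5] at h3
      rw [e2] at hδW hδ3W
      rw [e3] at hηW
      rw [e1] at hb'
      rw [e4]
      linarith [h1'.1, h2'.2]
    have hA0 : 0 < A := by linarith
    have e6 : c₀ * η₀ / (32 * A) * W = (c₀ * η₀ / 8 * W) / (4 * A) := by
      field_simp
      ring
    rw [e6, div_le_iff₀ (by positivity)]
    linarith

end

end Pool.Agent.Q251.UG
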