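import Pool.Agent.Q251.UM.UGb

set_option autoImplicit false
set_option linter.unusedVariables false

/-! Project UM6 (helper97), job UG2 (helper251): analytic input. -/

namespace Pool.Agent.Q251.UG

open Filter Topology MeasureTheory Complex
open Pool.Agent.Q97.UM Pool.Agent.Q61.UM

noncomputable section

/-- mean value with a crude error -/
theorem mv2' (h : S_MV2) : ∃ C₀ : ℝ, 1 ≤ C₀ ∧ ∀ (a b : ℝ), a ≤ b → ∀ (N : ℕ) (c : ℕ → ℂ),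
    |(∫ t in a..b, ‖dp N c t‖ ^ 2) - (b - a) * N2 N c| ≤ C₀ * (N : ℝ) ^ 2 * N2 N c := by
  obtain ⟨C₀, hC₀, h⟩ := h
  refine ⟨C₀, hC₀, ?_⟩
  intro a b hab N c
  rcases Nat.eq_zero_or_pos N with h0 | h0
  · subst h0
    simp [dp, N2]
  · refine (h a b hab N c h0).trans ?_
    have h1 : (1 : ℝ) ≤ N := by exact_mod_cast h0
    have h2 := Real.log_le_sub_one_of_pos (show (0 : ℝ) < N by linarith)
    have h3 := N2_nonneg N c
    have h4 : C₀ * N * (1 + Real.log N) ≤ C₀ * (N : ℝ) ^ 2 := by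
      rw [sq, ← mul_assoc]
      exact mul_le_mul_of_nonneg_left (by linarith) (by positivity)
    exact mul_le_mul_of_nonneg_right h4 h3

theorem zo_zero {t r u : ℝ} (hu : u ∈ Zo t r) : |u - t| ≤ r ∧ riemannZeta (1 / 2 + u * I) = 0 := by
  refine ⟨hu.1, ?_⟩
  by_contra hne
  have h1 : analyticOrderAt riemannZeta (1 / 2 + u * I) = 0 := analyticOrderAt_eq_zero.2 (Or.inr hne)
  have h2 := hu.2
  rw [analyticOrderNatAt, h1] at h2
  revert h2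
  simp

theorem sc_shift (hD : S_DPM) (hL : S_MVL) {T ε c R : ℝ} {N : ℕ} (hT16 : 16 ≤ T) (hN : (N : ℝ) ≤ T ^ (1 / 4 : ℝ))
    (hε : 0 ≤ ε) (hC : ∀ b : ℕ → ℂ, ∫ t in {t : ℝ | T ≤ t ∧ t ≤ 2 * T ∧
      ((Zo t (R / Real.log T)).ncard : ℝ) < c * R}, ‖dp N b t‖ ^ 2 ≤ ε * ∫ t in T..(2 * T), ‖dp N b t‖ ^ 2)
    (b : ℕ → ℂ) (y : ℝ) :
    ∫ t in {t : ℝ | T ≤ t + y ∧ t + y ≤ 2 * T ∧ ((Zo (t + y) (R / Real.log T)).ncard : ℝ) < c * R}, ‖dp N b t‖ ^ 2 ≤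
      2 * ε * T * N2 N b := by
  have h1 := (measurePreserving_add_right volume y).setIntegral_preimage_emb
    (MeasurableEquiv.addRight y).measurableEmbedding (fun t => ‖dp N b (t - y)‖ ^ 2)
    {t : ℝ | T ≤ t ∧ t ≤ 2 * T ∧ ((Zo t (R / Real.log T)).ncard : ℝ) < c * R}
  simp only [add_sub_cancel_right] at h1
  have h2 : (fun x : ℝ => x + y) ⁻¹' {t : ℝ | T ≤ t ∧ t ≤ 2 * T ∧ ((Zo t (R / Real.log T)).ncard : ℝ) < c * R} =
      {t : ℝ | T ≤ t + y ∧ t + y ≤ 2 * T ∧ ((Zo (t + y) (R / Real.log T)).ncard : ℝ) < c * R} := rfl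
  rw [h2] at h1
  rw [h1]
  have h3 : ∀ t, ‖dp N b (t - y)‖ ^ 2 = ‖dp N (fun n => b n * (n : ℂ) ^ (y * I)) t‖ ^ 2 := fun t => by
    rw [(hD.2.1 N b t y).1]
  simp_rw [h3]
  refine (hC _).trans ?_
  have h4 := (hL T hT16 N hN (fun n => b n * (n : ℂ) ^ (y * I))).2
  rw [(hD.2.1 N b 0 y).2] at h4
  calc ε * ∫ t in T..(2 * T), ‖dp N (fun n => b n * (n : ℂ) ^ (y * I)) t‖ ^ 2 ≤ ε * (2 * T * N2 N b) :=
        mul_le_mul_of_nonneg_left h4 hε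
    _ = 2 * ε * T * N2 N b := by ring

end

end Pool.Agent.Q251.UG
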