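import Pool.Agent.Q251.UM.UGc

set_option autoImplicit false
set_option linter.unusedVariables false

/-! Project UM6 (helper97), job UG2 (helper251): the inequality for one `T`. -/

namespace Pool.Agent.Q251.UG

open Filter Topology MeasureTheory Complex
open Pool.Agent.Q97.UM Pool.Agent.Q61.UM

noncomputable section

open Classical in
theorem group (Z : Finset ℂ) (w : ℂ → ℝ) (F : ℝ → ℝ) :
    ∑ s ∈ Z, w s * F s.im = ∑ x ∈ Z.image Complex.im, (∑ s ∈ Z.filter (fun s => s.im = x), w s) * F x := by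
  rw [← Finset.sum_fiberwise_of_maps_to (s := Z) (t := Z.image Complex.im) (g := Complex.im)
    (fun s hs => Finset.mem_image_of_mem _ hs)]
  refine Finset.sum_congr rfl fun x _ => ?_
  rw [Finset.sum_mul]
  refine Finset.sum_congr rfl fun s hs => ?_
  rw [(Finset.mem_filter.1 hs).2]

open Classical in
/-- number of zeros of ordinate `x` -/
def Mf (Z : Finset ℂ) (x : ℝ) : ℝ := ∑ s ∈ Z.filter (fun s => s.im = x), (mz s : ℝ)

theorem Mf_nat (Z : Finset ℂ) (x : ℝ) : ∃ n : ℕ, Mf Z x = n := by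
  classical
  refine ⟨∑ s ∈ Z.filter (fun s => s.im = x), mz s, ?_⟩
  unfold Mf
  push_cast
  refine Finset.sum_congr ?_ fun _ _ => rfl
  congr

theorem Mf_ge {Z : Finset ℂ} {s : ℂ} (hs : s ∈ Z) : (mz s : ℝ) ≤ Mf Z s.im := by
  classical
  unfold Mf
  exact Finset.single_le_sum (f := fun s => (mz s : ℝ)) (fun _ _ => Nat.cast_nonneg _) (Finset.mem_filter.2 ⟨hs, rfl⟩)

theorem Mf_two {Z : Finset ℂ} (hZ : ∀ s ∈ Z, 1 ≤ mz s) {s s' : ℂ} (hs : s ∈ Z) (hs' : s' ∈ Z) (hne : s' ≠ s)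
    (him : s'.im = s.im) : 2 ≤ Mf Z s.im := by
  classical
  unfold Mf
  have h1 : ({s, s'} : Finset ℂ) ⊆ Z.filter (fun z => z.im = s.im) := by
    intro z hz
    rw [Finset.mem_insert, Finset.mem_singleton] at hz
    rcases hz with rfl | rfl
    · exact Finset.mem_filter.2 ⟨hs, rfl⟩
    · exact Finset.mem_filter.2 ⟨hs', him⟩
  have h2 : ∑ z ∈ ({s, s'} : Finset ℂ), (mz z : ℝ) ≤ ∑ z ∈ Z.filter (fun z => z.im = s.im), (mz z : ℝ) :=
    Finset.sum_le_sum_of_subset_of_nonneg h1 fun _ _ _ => Nat.cast_nonneg _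
  rw [Finset.sum_pair (Ne.symm hne)] at h2
  have h3 : (1 : ℝ) ≤ mz s := by exact_mod_cast hZ s hs
  have h4 : (1 : ℝ) ≤ mz s' := by exact_mod_cast hZ s' hs'
  linarith

theorem Mf_exists {Z : Finset ℂ} {s : ℂ} (hs : s ∈ Z) (h2 : 2 ≤ Mf Z s.im) :
    2 ≤ mz s ∨ ∃ s' ∈ Z, s' ≠ s ∧ s'.im = s.im := by
  classical
  by_contra hc
  push Not at hc
  obtain ⟨h3, h4⟩ := hc
  have h5 : Z.filter (fun z => z.im = s.im) = {s} := by
    ext z
    rw [Finset.mem_filter, Finset.mem_singleton]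
    constructor
    · rintro ⟨h6, h7⟩
      by_contra hne
      exact h4 z h6 hne h7
    · rintro rfl
      exact ⟨hs, rfl⟩
  have h6 : Mf Z s.im = mz s := by
    unfold Mf
    have : ∑ z ∈ Z.filter (fun z => z.im = s.im), (mz z : ℝ) = mz s := by rw [h5, Finset.sum_singleton]
    rw [← this]
  rw [h6] at h2
  have : 2 ≤ mz s := by exact_mod_cast h2
  omega

open Classical in
theorem main_T (hDP : S_DPM) (hML : S_MVL) {C₀ : ℝ} (hmv : ∀ (a b : ℝ), a ≤ b → ∀ (N : ℕ) (c : ℕ → ℂ),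
      |(∫ t in a..b, ‖dp N c t‖ ^ 2) - (b - a) * N2 N c| ≤ C₀ * (N : ℝ) ^ 2 * N2 N c)
    {c₀ η₀ A θ T ε' c R : ℝ} (hc₀ : 0 < c₀) (hη₀ : 0 < η₀) (hη1 : η₀ ≤ 1 / 2) (hA : 2 ≤ A) (hθ : 0 < θ)
    (hθA : θ * (1000 * A) ≤ c₀ * η₀) (hθ40 : θ ≤ 1 / 40)
    (hT : 64 ≤ T) (hL1 : 1 ≤ Real.log T) (hρ1 : A * (2 * Real.pi / Real.log T) ≤ 1) (hε' : ε' = c₀ * η₀ / 200)
    (hR : R = Real.pi * A / 2) (hcR : 0 < c * R)
    {N : ℕ} (hN : (N : ℝ) ≤ T ^ θ) (hNe : C₀ * (N : ℝ) ^ 2 ≤ ε' * T) (hNe3 : C₀ * (N : ℝ) ^ 2 ≤ T / 2)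
    (hNe2 : 3 * (N : ℝ) ≤ ε' * T) (b : ℕ → ℂ)
    (hC : ∀ b : ℕ → ℂ, ∫ t in {t : ℝ | T ≤ t ∧ t ≤ 2 * T ∧
      ((Zo t (R / Real.log T)).ncard : ℝ) < c * R}, ‖dp N b t‖ ^ 2 ≤ ε' * ∫ t in T..(2 * T), ‖dp N b t‖ ^ 2)
    (hSamp : |(∑ s ∈ H370.Zf riemannZeta T (2 * T), (mz s : ℝ) * ‖dp N b s.im‖ ^ 2) -
      Real.log T / (2 * Real.pi) * (T * N2 N b)| ≤ min (c₀ * η₀ / 80) (1 / 2) * Real.log T * (T * N2 N b))
    (hUGB : c₀ * Real.log T * (T * N2 N b) ≤ ∑ s ∈ (H370.Zf riemannZeta T (2 * T)).filter (fun s => ¬ Gd η₀ T s),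
      (mz s : ℝ) * ‖dp N b s.im‖ ^ 2)
    {η : ℝ} (hη : 0 < η) (hηη : η ≤ η₀) (hηk : η ≤ c₀ * η₀ / 32) :
    c₀ * η₀ / (32 * A) * Real.log T * (T * N2 N b) ≤ ∑ s ∈ (H370.Zf riemannZeta T (2 * T)).filter (fun s => 2 ≤ mz s ∨
      ∃ s' ∈ ZD T, s' ≠ s ∧ |s'.im - s.im| ≤ (1 - η) * (2 * Real.pi / Real.log T)), (mz s : ℝ) * ‖dp N b s.im‖ ^ 2 ∧
    c₀ * η₀ / (32 * A) * Real.log T * (T * N2 N b) ≤ ∑ s ∈ (H370.Zf riemannZeta T (2 * T)).filter (fun s =>
      ∀ s' ∈ ZD T, ¬ (s.im < s'.im ∧ s'.im < s.im + (1 + η) * (2 * Real.pi / Real.log T))), ‖dp N b s.im‖ ^ 2 := by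
  have hF := H370.good_zeta
  have hπ : 3 < Real.pi := Real.pi_gt_three
  have hπ4 : Real.pi < 4 := Real.pi_lt_four
  have hS0 := N2_nonneg N b
  set L : ℝ := Real.log T with hL
  have hL0 : 0 < L := by linarith
  have hT0 : 0 < T := by linarith
  set ρ : ℝ := 2 * Real.pi / L with hρ
  have hρ0 : 0 < ρ := by positivity
  set D : ℝ := A * ρ with hD
  have hD0 : 0 < D := by positivity
  have hρD : 2 * ρ ≤ D := by rw [hD]; exact mul_le_mul_of_nonneg_right hA hρ0.le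
  have hκ : 0 < c₀ * η₀ := by positivity
  have hε0 : 0 < ε' := by rw [hε']; positivity
  set S : ℝ := N2 N b with hS
  have hTS : 0 ≤ T * S := by positivity
  set W : ℝ := L * (T * S) with hW
  have hW0 : 0 ≤ W := by positivity
  set Z := H370.Zf riemannZeta T (2 * T) with hZ
  set G : Finset ℝ := (ZD T).image Complex.im with hG
  set G0 : Finset ℝ := Z.image Complex.im with hG0
  have hZm : ∀ s, s ∈ Z ↔ (0 < s.re ∧ s.re < 1 ∧ T < s.im ∧ s.im ≤ 2 * T ∧ riemannZeta s = 0) := by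
    intro s
    rw [hZ, H370.mem_Zf hF (by linarith)]
    rfl
  have hZDm : ∀ s, s ∈ ZD T ↔ (0 < s.re ∧ s.re < 1 ∧ T / 16 < s.im ∧ s.im ≤ 16 * T ∧ riemannZeta s = 0) := by
    intro s
    unfold ZD
    rw [H370.mem_Zf hF (by linarith)]
    rfl
  have hmz : ∀ s ∈ Z, 1 ≤ mz s := by
    intro s hs
    rw [hZm] at hs
    exact H370.Loc.mult_pos' hF (show 0 < s.im by linarith [hs.2.2.1]) hs.2.2.2.2
  have hZZD : ∀ s ∈ Z, s ∈ ZD T := by
    intro s hs
    rw [hZm] at hs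
    rw [hZDm]
    obtain ⟨a1, a2, a3, a4, a5⟩ := hs
    exact ⟨a1, a2, by linarith, by linarith, a5⟩
  have hZDZ : ∀ s ∈ ZD T, T < s.im → s.im ≤ 2 * T → s ∈ Z := by
    intro s hs h1 h2
    rw [hZDm] at hs
    rw [hZm]
    obtain ⟨a1, a2, a3, a4, a5⟩ := hs
    exact ⟨a1, a2, h1, h2, a5⟩
  have h0 : G0 ⊆ G := by
    intro x hx
    rw [hG0, Finset.mem_image] at hx
    obtain ⟨s, hs, rfl⟩ := hx
    exact Finset.mem_image_of_mem _ (hZZD s hs)
  have h1 : ∀ x ∈ G0, T ≤ x ∧ x ≤ 2 * T := by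
    intro x hx
    rw [hG0, Finset.mem_image] at hx
    obtain ⟨s, hs, rfl⟩ := hx
    rw [hZm] at hs
    exact ⟨hs.2.2.1.le, hs.2.2.2.1⟩
  have h2 : ∀ x ∈ G, T < x → x < 2 * T → x ∈ G0 := by
    intro x hx hx1 hx2
    rw [hG, Finset.mem_image] at hx
    obtain ⟨s, hs, rfl⟩ := hx
    exact Finset.mem_image_of_mem _ (hZDZ s hs hx1 hx2.le)
  -- analytic functions
  have hc : ∀ c : ℕ → ℂ, Continuous (dp N c) := fun c => (hDP.2.2 N c 0).2
  set lam : ℝ := θ * L with hlam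
  have hlam0 : 0 < lam := by positivity
  set f : ℝ → ℝ := fun t => ‖dp N b t‖ ^ 2 with hf
  set k : ℝ → ℝ := fun t => lam * ‖dp N b t‖ ^ 2 + lam⁻¹ * ‖dp N (bd b) t‖ ^ 2 with hk
  have hfc : Continuous f := (hc b).norm.pow 2
  have hkc : Continuous k := (((hc b).norm.pow 2).const_mul _).add (((hc (bd b)).norm.pow 2).const_mul _)
  have hf0 : ∀ t, 0 ≤ f t := fun t => by positivity
  have hk0 : ∀ t, 0 ≤ k t := fun t => by positivity
  have hfM : ∀ t, f t ≤ N * S := fun t => (hDP.2.2 N b t).1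
  have hfk : ∀ x y : ℝ, |f y - f x| ≤ |∫ t in x..y, k t| := dp_var hDP N b hlam0
  have hNL : N2 N (bd b) ≤ lam ^ 2 * S := by
    refine (N2_bd N b).trans (mul_le_mul_of_nonneg_right ?_ hS0)
    rcases Nat.eq_zero_or_pos N with h0 | h0
    · rw [h0]; simp; positivity
    · have h1 : (1 : ℝ) ≤ N := by exact_mod_cast h0
      have h2 : Real.log N ≤ lam := by
        rw [hlam, hL, ← Real.log_rpow hT0]
        exact Real.log_le_log (by linarith) hN
      have h3 := Real.log_nonneg h1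
      gcongr
  have hD1 : D ≤ 1 := hρ1
  have hmv1 : ∀ c : ℕ → ℂ, ∫ t in (T - D)..(2 * T + D), ‖dp N c t‖ ^ 2 ≤ 2 * T * N2 N c := by
    intro c
    have h3 := (abs_le.1 (hmv (T - D) (2 * T + D) (by linarith) N c)).2
    have h4 := N2_nonneg N c
    have h5 : C₀ * (N : ℝ) ^ 2 * N2 N c ≤ T / 2 * N2 N c := mul_le_mul_of_nonneg_right hNe3 h4
    have h6 : (2 * T + D - (T - D)) * N2 N c ≤ (T + 2) * N2 N c := mul_le_mul_of_nonneg_right (by linarith) h4
    nlinarith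
  have hK : ∫ t in (T - D)..(2 * T + D), k t ≤ 4 * θ * W := by
    have e1 : ∫ t in (T - D)..(2 * T + D), k t = lam * (∫ t in (T - D)..(2 * T + D), ‖dp N b t‖ ^ 2) +
        lam⁻¹ * ∫ t in (T - D)..(2 * T + D), ‖dp N (bd b) t‖ ^ 2 := by
      have i1 : IntervalIntegrable (fun t => lam * ‖dp N b t‖ ^ 2) volume (T - D) (2 * T + D) :=
        Continuous.intervalIntegrable (((hc b).norm.pow 2).const_mul _) _ _
      have i2 : IntervalIntegrable (fun t => lam⁻¹ * ‖dp N (bd b) t‖ ^ 2) volume (T - D) (2 * T + D) :=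
        Continuous.intervalIntegrable (((hc (bd b)).norm.pow 2).const_mul _) _ _
      rw [← intervalIntegral.integral_const_mul, ← intervalIntegral.integral_const_mul, ← intervalIntegral.integral_add i1 i2]
    rw [e1]
    have h3 := hmv1 b
    have h4 := hmv1 (bd b)
    have h5 : 2 * T * N2 N (bd b) ≤ 2 * T * (lam ^ 2 * S) := mul_le_mul_of_nonneg_left hNL (by positivity)
    calc lam * (∫ t in (T - D)..(2 * T + D), ‖dp N b t‖ ^ 2) +
        lam⁻¹ * ∫ t in (T - D)..(2 * T + D), ‖dp N (bd b) t‖ ^ 2 ≤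
          lam * (2 * T * S) + lam⁻¹ * (2 * T * (lam ^ 2 * S)) := by
          have := h4.trans h5
          gcongr
      _ = 4 * θ * W := by
          rw [hW, hlam]
          field_simp
          ring
  have hN4 : (N : ℝ) ≤ T ^ (1 / 4 : ℝ) := hN.trans (Real.rpow_le_rpow_of_exponent_le (by linarith) (by linarith))
  have hmass : ∀ y : ℝ, ∫ t in {t : ℝ | T ≤ t + y ∧ t + y ≤ 2 * T ∧ ((Zo (t + y) (R / L)).ncard : ℝ) < c * R}, f t ≤
      2 * ε' * T * S := fun y => sc_shift hDP hML (by linarith) hN4 hε0.le hC b y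
  have hSi : ∀ y : ℝ, IntegrableOn f {t : ℝ | T ≤ t + y ∧ t + y ≤ 2 * T ∧ ((Zo (t + y) (R / L)).ncard : ℝ) < c * R} := by
    intro y
    refine (hfc.integrableOn_Icc (a := T - y) (b := 2 * T - y)).mono_set ?_
    intro t ht
    exact ⟨by linarith [ht.1], by linarith [ht.2.1]⟩
  have hRL : R / L = D / 4 := by
    rw [hR, hD, hρ]
    field_simp
    ring
  have hZo : ∀ t : ℝ, T ≤ t → t ≤ 2 * T → (∀ y ∈ G, ¬ |y - t| ≤ D / 4) → ((Zo t (R / L)).ncard : ℝ) < c * R := by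
    intro t ht1 ht2 hno
    have h3 : Zo t (R / L) = ∅ := by
      rw [Set.eq_empty_iff_forall_notMem]
      intro u hu
      obtain ⟨hu1, hu2⟩ := zo_zero hu
      rw [hRL] at hu1
      have hu3 := abs_le.1 hu1
      refine hno u ?_ hu1
      rw [hG, Finset.mem_image]
      refine ⟨1 / 2 + u * I, ?_, by simp⟩
      rw [hZDm]
      have e1 : ((1 / 2 : ℂ) + u * I).re = 1 / 2 := by simp
      have e2 : ((1 / 2 : ℂ) + u * I).im = u := by simp
      rw [e1, e2]
      exact ⟨by norm_num, by norm_num, by linarith, by linarith, hu2⟩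
    rw [h3, Set.ncard_empty]
    simpa using hcR
  obtain ⟨nx, hnx⟩ := exists_nx G hD0
  obtain ⟨pv, hpv⟩ := exists_pv G hD0
  have hE1 : |∑ x ∈ G0, (nx x - x) * f x - ∫ t in T..(2 * T), f t| ≤ D * (4 * θ * W) + 3 * D * (N * S) + 2 * ε' * T * S := by
    refine gap_right hD0 (by linarith) hnx h0 h1 h2 hfc hkc hf0 hk0 hfM hfk hK ?_ (hSi (-(D / 2))) (hmass (-(D / 2)))
    intro t ht1 ht2 hno
    refine ⟨by linarith, by linarith, hZo _ (by linarith) (by linarith) ?_⟩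
    intro y hy hyt
    have := abs_le.1 hyt
    exact hno y hy ⟨by linarith, by linarith⟩
  have hE2 : |∑ x ∈ G0, (x - pv x) * f x - ∫ t in T..(2 * T), f t| ≤ D * (4 * θ * W) + 3 * D * (N * S) + 2 * ε' * T * S := by
    refine gap_left hD0 (by linarith) hpv h0 h1 h2 hfc hkc hf0 hk0 hfM hfk hK ?_ (hSi (D / 2)) (hmass (D / 2))
    intro t ht1 ht2 hno
    refine ⟨by linarith, by linarith, hZo _ (by linarith) (by linarith) ?_⟩
    intro y hy hyt
    have := abs_le.1 hyt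
    exact hno y hy ⟨by linarith, by linarith⟩
  have htr := transfer (G := G) (G0 := G0) (D := D) (a := T) (b := 2 * T) (M := N * S) (Kk := 4 * θ * W) (ρ := ρ)
    hρ0 (by linarith) (by linarith) hnx hpv h0 h1 h2 hkc hf0 hk0 hfM hfk hK
  -- mean value
  have hmvT : |(∫ t in T..(2 * T), f t) - T * S| ≤ ε' * T * S := by
    have h3 := hmv T (2 * T) (by linarith) N b
    rw [show 2 * T - T = T by ring] at h3
    exact h3.trans (mul_le_mul_of_nonneg_right hNe hS0)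
  have hSum : ∑ s ∈ Z, (mz s : ℝ) * f s.im = ∑ x ∈ G0, Mf Z x * f x := group Z _ f
  have hTρ : T * S / ρ = L / (2 * Real.pi) * (T * S) := by
    rw [hρ]
    field_simp
  have hTρ2 : T * S / ρ ≤ W / 6 := by
    rw [hTρ]
    have e1 : L / (2 * Real.pi) * (T * S) = W / (2 * Real.pi) := by rw [hW]; ring
    rw [e1]
    exact div_le_div_of_nonneg_left hW0 (by norm_num) (by linarith)
  have hNS : 3 * (N * S) ≤ ε' * T * S := by
    have := mul_le_mul_of_nonneg_right hNe2 hS0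
    linarith
  have hNS0 : 0 ≤ (N : ℝ) * S := by positivity
  have hθW : 4 * θ * A * W ≤ c₀ * η₀ / 250 * W := by
    refine mul_le_mul_of_nonneg_right ?_ hW0
    linarith
  have hminle : min (c₀ * η₀ / 80) (1 / 2) * L * (T * S) ≤ c₀ * η₀ / 80 * W := by
    have := mul_le_mul_of_nonneg_right (min_le_left (c₀ * η₀ / 80) (1 / 2)) hW0
    rw [hW] at this ⊢
    linarith
  have hminle2 : min (c₀ * η₀ / 80) (1 / 2) * L * (T * S) ≤ 1 / 2 * W := by
    have := mul_le_mul_of_nonneg_right (min_le_right (c₀ * η₀ / 80) (1 / 2)) hW0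
    rw [hW] at this ⊢
    linarith
  have hSamp' : |(∑ x ∈ G0, Mf Z x * f x) - L / (2 * Real.pi) * (T * S)| ≤ min (c₀ * η₀ / 80) (1 / 2) * L * (T * S) := by
    rw [← hSum]
    exact hSamp
  have hSMle : ∑ x ∈ G0, Mf Z x * f x ≤ W := by
    have h3 := (abs_le.1 hSamp').2
    rw [← hTρ] at h3
    linarith
  have hgen : ∀ ℓ : ℝ → ℝ, |∑ x ∈ G0, ℓ x * f x - ∫ t in T..(2 * T), f t| ≤ D * (4 * θ * W) + 3 * D * (N * S) + 2 * ε' * T * S →
      |∑ x ∈ G0, (ℓ x / ρ - Mf Z x) * f x| ≤ c₀ * η₀ / 40 * W := by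
    intro ℓ hℓ
    have e1 : ∑ x ∈ G0, (ℓ x / ρ - Mf Z x) * f x =
        ((∑ x ∈ G0, ℓ x * f x) - T * S) / ρ - (∑ x ∈ G0, Mf Z x * f x - L / (2 * Real.pi) * (T * S)) := by
      have e2 : ∑ x ∈ G0, (ℓ x / ρ - Mf Z x) * f x = (∑ x ∈ G0, ℓ x * f x) / ρ - ∑ x ∈ G0, Mf Z x * f x := by
        rw [Finset.sum_div, ← Finset.sum_sub_distrib]
        refine Finset.sum_congr rfl fun x _ => ?_
        ring
      rw [e2, sub_div, hTρ]
      ring
    have h3 : |(∑ x ∈ G0, ℓ x * f x) - T * S| ≤ D * (4 * θ * W) + 4 * ε' * (T * S) := by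
      have h4 := abs_le.1 hℓ
      have h5 := abs_le.1 hmvT
      have h6 : 3 * D * (N * S) ≤ ε' * T * S := by
        have : D * (3 * (N * S)) ≤ 1 * (3 * (N * S)) := mul_le_mul_of_nonneg_right hD1 (by positivity)
        linarith
      rw [abs_le]
      constructor <;> linarith [h4.1, h4.2, h5.1, h5.2]
    have h4 : |((∑ x ∈ G0, ℓ x * f x) - T * S) / ρ| ≤ 4 * θ * A * W + 4 * ε' * (W / 6) := by
      rw [abs_div, abs_of_pos hρ0, div_le_iff₀ hρ0]
      refine h3.trans ?_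
      have e3 : D * (4 * θ * W) = 4 * θ * A * W * ρ := by rw [hD]; ring
      have e4 : 4 * ε' * (T * S) ≤ 4 * ε' * (W / 6) * ρ := by
        have h5 := hTρ2
        rw [div_le_iff₀ hρ0] at h5
        have := mul_le_mul_of_nonneg_left h5 (show 0 ≤ 4 * ε' by positivity)
        linarith
      rw [e3]
      linarith
    rw [e1]
    have h5 : 4 * ε' * (W / 6) = c₀ * η₀ / 300 * W := by rw [hε']; ring
    have h6 := abs_sub ((((∑ x ∈ G0, ℓ x * f x) - T * S) / ρ)) (∑ x ∈ G0, Mf Z x * f x - L / (2 * Real.pi) * (T * S))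
    have h7 : 0 ≤ c₀ * η₀ * W := by positivity
    refine h6.trans ?_
    rw [h5] at h4
    have e5 : c₀ * η₀ / 40 * W = c₀ * η₀ * W / 40 := by ring
    have e6 : c₀ * η₀ / 300 * W = c₀ * η₀ * W / 300 := by ring
    have e7 : c₀ * η₀ / 250 * W = c₀ * η₀ * W / 250 := by ring
    have e8 : c₀ * η₀ / 80 * W = c₀ * η₀ * W / 80 := by ring
    rw [e5]
    rw [e6] at h4
    rw [e7] at hθW
    rw [e8] at hminle
    linarith
  have hG1 := hgen (fun x => nx x - x) hE1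
  have hG2 := hgen (fun x => x - pv x) hE2
  set g : ℝ → ℝ := fun x => (nx x - x) / ρ with hg
  set g' : ℝ → ℝ := fun x => (x - pv x) / ρ with hg'
  have hgρ : ∀ x, g x * ρ = nx x - x := fun x => by rw [hg]; field_simp
  have hgρ' : ∀ x, g' x * ρ = x - pv x := fun x => by rw [hg']; field_simp
  have hMf1 : ∀ x ∈ G0, 1 ≤ Mf Z x := by
    intro x hx
    rw [hG0, Finset.mem_image] at hx
    obtain ⟨s, hs, rfl⟩ := hx
    have h3 : (1 : ℝ) ≤ mz s := by exact_mod_cast hmz s hs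
    exact h3.trans (Mf_ge hs)
  have hMf : ∀ x ∈ G0, Mf Z x = 1 ∨ 2 ≤ Mf Z x := by
    intro x hx
    have h3 := hMf1 x hx
    obtain ⟨n, hn⟩ := Mf_nat Z x
    rw [hn] at h3 ⊢
    have h4 : 1 ≤ n := by exact_mod_cast h3
    rcases Nat.lt_or_ge n 2 with h5 | h5
    · left
      have : n = 1 := by omega
      rw [this]
      norm_num
    · right
      exact_mod_cast h5
  have hgA : ∀ x ∈ G0, g x ≤ A := by
    intro x _
    have h3 := hnx.le x
    rw [hg]
    show (nx x - x) / ρ ≤ A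
    rw [div_le_iff₀ hρ0]
    linarith
  have hg0 : ∀ x ∈ G0, 0 ≤ g x := fun x _ => div_nonneg (by linarith [hnx.lt x]) hρ0.le
  have hg0' : ∀ x ∈ G0, 0 ≤ g' x := fun x _ => div_nonneg (by linarith [hpv.lt x]) hρ0.le
  -- bad zeros
  have hbadness : ∀ s ∈ Z, ¬ Gd η₀ T s → (2 ≤ Mf Z s.im ∨ η₀ ≤ |g s.im - 1| ∨ η₀ ≤ |g' s.im - 1|) := by
    intro s hs hnG
    by_contra hnb
    push Not at hnb
    obtain ⟨b1, b2, b3⟩ := hnb
    apply hnG
    have hsm := (hZm s).1 hs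
    have c2 := abs_lt.1 b2
    have c3 := abs_lt.1 b3
    have gg := hgρ s.im
    have gg' := hgρ' s.im
    have p1 : (1 - η₀) * ρ ≤ nx s.im - s.im := by
      rw [← gg]
      exact mul_le_mul_of_nonneg_right (by linarith) hρ0.le
    have p2 : nx s.im - s.im ≤ (1 + η₀) * ρ := by
      rw [← gg]
      exact mul_le_mul_of_nonneg_right (by linarith) hρ0.le
    have p3 : (1 - η₀) * ρ ≤ s.im - pv s.im := by
      rw [← gg']
      exact mul_le_mul_of_nonneg_right (by linarith) hρ0.le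
    have p4 : s.im - pv s.im ≤ (1 + η₀) * ρ := by
      rw [← gg']
      exact mul_le_mul_of_nonneg_right (by linarith) hρ0.le
    have p5 : (1 + η₀) * ρ < D := by
      have : (1 + η₀) * ρ < 2 * ρ := mul_lt_mul_of_pos_right (by linarith) hρ0
      linarith
    refine ⟨?_, ?_, ?_, ?_⟩
    · have h3 := Mf_ge hs
      have h4 : (mz s : ℝ) < 2 := lt_of_le_of_lt h3 b1
      have h5 : mz s < 2 := by exact_mod_cast h4
      have h6 := hmz s hs
      omega
    · intro s' hs' hne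
      show (1 - η₀) * ρ ≤ |s'.im - s.im|
      rcases lt_trichotomy s'.im s.im with h3 | h3 | h3
      · have h4 := hpv.prv s.im s'.im (Finset.mem_image_of_mem _ hs') h3
        rw [abs_of_neg (by linarith)]
        linarith
      · exfalso
        have h4 : s' ∈ Z := hZDZ s' hs' (by rw [h3]; exact hsm.2.2.1) (by rw [h3]; exact hsm.2.2.2.1)
        have h5 := Mf_two hmz hs h4 hne h3
        linarith
      · have h4 := hnx.nxt s.im s'.im (Finset.mem_image_of_mem _ hs') h3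
        rw [abs_of_pos (by linarith)]
        linarith
    · rcases hnx.mem s.im with h3 | h3
      · exfalso
        rw [h3] at p2
        linarith
      · rw [hG, Finset.mem_image] at h3
        obtain ⟨s', hs', h4⟩ := h3
        refine ⟨s', hs', ?_, ?_⟩
        · rw [h4]; exact hnx.lt _
        · show s'.im ≤ s.im + (1 + η₀) * ρ
          rw [h4]; linarith
    · rcases hpv.mem s.im with h3 | h3
      · exfalso
        rw [h3] at p4
        linarith
      · rw [hG, Finset.mem_image] at h3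
        obtain ⟨s', hs', h4⟩ := h3
        refine ⟨s', hs', ?_, ?_⟩
        · rw [h4]; exact hpv.lt _
        · show s.im - (1 + η₀) * ρ ≤ s'.im
          rw [h4]; linarith
  have hb : c₀ * W ≤ ∑ x ∈ G0, (if (2 ≤ Mf Z x ∨ η₀ ≤ |g x - 1| ∨ η₀ ≤ |g' x - 1|) then Mf Z x else 0) * f x := by
    have e1 : ∑ x ∈ G0, (if (2 ≤ Mf Z x ∨ η₀ ≤ |g x - 1| ∨ η₀ ≤ |g' x - 1|) then Mf Z x else 0) * f x =
        ∑ x ∈ G0, Mf Z x * ((if (2 ≤ Mf Z x ∨ η₀ ≤ |g x - 1| ∨ η₀ ≤ |g' x - 1|) then 1 else 0) * f x) := by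
      refine Finset.sum_congr rfl fun x _ => ?_
      split_ifs <;> ring
    have e2 := group Z (fun s => (mz s : ℝ))
      (fun x => (if (2 ≤ Mf Z x ∨ η₀ ≤ |g x - 1| ∨ η₀ ≤ |g' x - 1|) then 1 else 0) * f x)
    rw [e1]
    have e3 : ∑ x ∈ G0, Mf Z x * ((if (2 ≤ Mf Z x ∨ η₀ ≤ |g x - 1| ∨ η₀ ≤ |g' x - 1|) then 1 else 0) * f x) =
        ∑ s ∈ Z, (mz s : ℝ) * ((if (2 ≤ Mf Z s.im ∨ η₀ ≤ |g s.im - 1| ∨ η₀ ≤ |g' s.im - 1|) then 1 else 0) * f s.im) :=
      e2.symm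
    rw [e3]
    have e4 : c₀ * W = c₀ * L * (T * S) := by rw [hW]; ring
    rw [e4]
    refine hUGB.trans ?_
    rw [Finset.sum_filter]
    refine Finset.sum_le_sum fun s hs => ?_
    have h3 : 0 ≤ (mz s : ℝ) * f s.im := mul_nonneg (Nat.cast_nonneg _) (hf0 _)
    by_cases h4 : ¬ Gd η₀ T s
    · rw [if_pos h4, if_pos (hbadness s hs h4), one_mul]
    · rw [if_neg h4]
      refine mul_nonneg (Nat.cast_nonneg _) (mul_nonneg ?_ (hf0 _))
      split_ifs <;> norm_num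
  have hδ3 : 4 * θ * W + N * S ≤ c₀ * η₀ / 40 * W := by
    have h3 : 4 * θ ≤ c₀ * η₀ / 250 := by
      have : θ * 2000 ≤ θ * (1000 * A) := mul_le_mul_of_nonneg_left (by linarith) hθ.le
      linarith
    have h4 : 4 * θ * W ≤ c₀ * η₀ / 250 * W := mul_le_mul_of_nonneg_right h3 hW0
    have h5 : T * S ≤ W := by
      rw [hW]
      have := mul_le_mul_of_nonneg_right hL1 hTS
      linarith
    have h6 : ε' * (T * S) ≤ ε' * W := mul_le_mul_of_nonneg_left h5 hε0.le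
    have h7 : ε' * W = c₀ * η₀ * W / 200 := by rw [hε']; ring
    have h8 : c₀ * η₀ / 250 * W = c₀ * η₀ * W / 250 := by ring
    have h9 : c₀ * η₀ / 40 * W = c₀ * η₀ * W / 40 := by ring
    have h10 : 0 ≤ c₀ * η₀ * W := by positivity
    linarith
  have hcomb := combine (G0 := G0) (f := f) (g := g) (g' := g') (M := Mf Z)
    (bad := fun x => 2 ≤ Mf Z x ∨ η₀ ≤ |g x - 1| ∨ η₀ ≤ |g' x - 1|) (η := η) (η₀ := η₀) (δ := c₀ * η₀ / 40)
    (δ₃ := c₀ * η₀ / 40) (A := A) (c₀ := c₀) (W := W) hf0 hMf hη₀ hη1 hη (by linarith) hgA hg0 hg0' (fun x _ h => h) hb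
    hG1 hG2 hSMle (by linarith) hW0 hc₀ le_rfl le_rfl hηk
  obtain ⟨hc1, hc2⟩ := hcomb
  have hA0 : 0 < A := by linarith
  constructor
  · have e0 : c₀ * η₀ / (32 * A) * L * (T * S) ≤ c₀ * η₀ / 28 * W := by
      have e1 : c₀ * η₀ / (32 * A) * L * (T * S) = c₀ * η₀ / (32 * A) * W := by rw [hW]; ring
      rw [e1]
      refine mul_le_mul_of_nonneg_right ?_ hW0
      exact div_le_div_of_nonneg_left hκ.le (by norm_num) (by linarith)
    refine e0.trans (hc1.trans ?_)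
    have e1 : ∑ x ∈ G0, (if (2 ≤ Mf Z x ∨ g x ≤ 1 - η ∨ g' x ≤ 1 - η) then Mf Z x else 0) * f x =
        ∑ x ∈ G0, Mf Z x * ((if (2 ≤ Mf Z x ∨ g x ≤ 1 - η ∨ g' x ≤ 1 - η) then 1 else 0) * f x) := by
      refine Finset.sum_congr rfl fun x _ => ?_
      split_ifs <;> ring
    have e2 := group Z (fun s => (mz s : ℝ))
      (fun x => (if (2 ≤ Mf Z x ∨ g x ≤ 1 - η ∨ g' x ≤ 1 - η) then 1 else 0) * f x)
    have e3 : ∑ x ∈ G0, Mf Z x * ((if (2 ≤ Mf Z x ∨ g x ≤ 1 - η ∨ g' x ≤ 1 - η) then 1 else 0) * f x) =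
        ∑ s ∈ Z, (mz s : ℝ) * ((if (2 ≤ Mf Z s.im ∨ g s.im ≤ 1 - η ∨ g' s.im ≤ 1 - η) then 1 else 0) * f s.im) :=
      e2.symm
    rw [e1, e3, Finset.sum_filter]
    refine Finset.sum_le_sum fun s hs => ?_
    have h3 : 0 ≤ (mz s : ℝ) * f s.im := mul_nonneg (Nat.cast_nonneg _) (hf0 _)
    have hηρ : 0 ≤ (1 - η) * ρ := mul_nonneg (by linarith) hρ0.le
    by_cases h4 : (2 ≤ Mf Z s.im ∨ g s.im ≤ 1 - η ∨ g' s.im ≤ 1 - η)
    · rw [if_pos h4, one_mul, if_pos]
      rcases h4 with h5 | h5 | h5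
      · rcases Mf_exists hs h5 with h6 | ⟨s', hs', hne, him⟩
        · left; exact h6
        · right
          refine ⟨s', hZZD s' hs', hne, ?_⟩
          rw [him, sub_self, abs_zero]
          exact hηρ
      · right
        have h6 : nx s.im - s.im ≤ (1 - η) * ρ := by
          rw [← hgρ]
          exact mul_le_mul_of_nonneg_right h5 hρ0.le
        have h8 : (1 - η) * ρ < 2 * ρ := mul_lt_mul_of_pos_right (by linarith) hρ0
        rcases hnx.mem s.im with h7 | h7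
        · exfalso
          rw [h7] at h6
          linarith
        · rw [hG, Finset.mem_image] at h7
          obtain ⟨s', hs', h9⟩ := h7
          have h10 := hnx.lt s.im
          refine ⟨s', hs', ?_, ?_⟩
          · intro heq
            rw [heq] at h9
            linarith
          · show |s'.im - s.im| ≤ (1 - η) * ρ
            rw [h9, abs_of_pos (by linarith)]
            exact h6
      · right
        have h6 : s.im - pv s.im ≤ (1 - η) * ρ := by
          rw [← hgρ']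
          exact mul_le_mul_of_nonneg_right h5 hρ0.le
        have h8 : (1 - η) * ρ < 2 * ρ := mul_lt_mul_of_pos_right (by linarith) hρ0
        rcases hpv.mem s.im with h7 | h7
        · exfalso
          rw [h7] at h6
          linarith
        · rw [hG, Finset.mem_image] at h7
          obtain ⟨s', hs', h9⟩ := h7
          have h10 := hpv.lt s.im
          refine ⟨s', hs', ?_, ?_⟩
          · intro heq
            rw [heq] at h9
            linarith
          · show |s'.im - s.im| ≤ (1 - η) * ρ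
            rw [h9, abs_of_neg (by linarith)]
            linarith
    · rw [if_neg h4, zero_mul, mul_zero]
      split_ifs
      · exact h3
      · exact le_rfl
  · have e0 : c₀ * η₀ / (32 * A) * L * (T * S) = c₀ * η₀ / (32 * A) * W := by rw [hW]; ring
    rw [e0]
    refine hc2.trans ?_
    have e2 := group Z (fun _ => (1 : ℝ)) (fun x => (if 1 + η ≤ g x then 1 else 0) * f x)
    have e3 : ∑ x ∈ G0, (if 1 + η ≤ g x then 1 else 0) * f x ≤
        ∑ x ∈ G0, (∑ s ∈ Z.filter (fun s => s.im = x), (1 : ℝ)) * ((if 1 + η ≤ g x then 1 else 0) * f x) := by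
      refine Finset.sum_le_sum fun x hx => ?_
      have h3 : 0 ≤ (if 1 + η ≤ g x then 1 else 0) * f x := by
        refine mul_nonneg ?_ (hf0 _)
        split_ifs <;> norm_num
      have h4 : (1 : ℝ) ≤ ∑ s ∈ Z.filter (fun s => s.im = x), (1 : ℝ) := by
        rw [hG0, Finset.mem_image] at hx
        obtain ⟨s, hs, hsx⟩ := hx
        exact Finset.single_le_sum (f := fun _ => (1 : ℝ)) (fun _ _ => zero_le_one) (Finset.mem_filter.2 ⟨hs, hsx⟩)
      have := mul_le_mul_of_nonneg_right h4 h3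
      linarith
    have e4 : ∑ x ∈ G0, (∑ s ∈ Z.filter (fun s => s.im = x), (1 : ℝ)) * ((if 1 + η ≤ g x then 1 else 0) * f x) =
        ∑ s ∈ Z, 1 * ((if 1 + η ≤ g s.im then 1 else 0) * f s.im) := e2.symm
    refine e3.trans ?_
    rw [e4, Finset.sum_filter]
    refine Finset.sum_le_sum fun s hs => ?_
    by_cases h4 : 1 + η ≤ g s.im
    · rw [if_pos h4, one_mul, one_mul, if_pos]
      intro s' hs' hc
      have hc' : s.im < s'.im ∧ s'.im < s.im + (1 + η) * ρ := hc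
      have h5 := hnx.nxt s.im s'.im (Finset.mem_image_of_mem _ hs') hc'.1
      have h6 : (1 + η) * ρ ≤ nx s.im - s.im := by
        rw [← hgρ]
        exact mul_le_mul_of_nonneg_right h4 hρ0.le
      linarith [hc'.2]
    · rw [if_neg h4, zero_mul, mul_zero]
      split_ifs
      · exact hf0 _
      · exact le_rfl

end

end Pool.Agent.Q251.UG
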